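import Pool.Agent.Lib_helper5.DLH.Vand

/-!
# Sums over all places of a number field
-/

set_option autoImplicit false
set_option linter.unusedSectionVars false

open Polynomial Finset NumberField

namespace Pool.Agent.Lib_helper5.DLH

variable {L : Type*} [Field L] [NumberField L]

/-- the sum over all places, infinite places with multiplicity -/
noncomputable def tot (φ : InfinitePlace L → ℝ) (ψ : FinitePlace L → ℝ) : ℝ :=
  ∑ w, (w.mult : ℝ) * φ w + ∑ᶠ w, ψ w

/-- finite support -/
abbrev FS (ψ : FinitePlace L → ℝ) : Prop := (Function.support ψ).Finite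

theorem tot_add {φ φ' : InfinitePlace L → ℝ} {ψ ψ' : FinitePlace L → ℝ} (h : FS ψ) (h' : FS ψ') :
    tot (fun w => φ w + φ' w) (fun w => ψ w + ψ' w) = tot φ ψ + tot φ' ψ' := by
  unfold tot
  rw [finsum_add_distrib h h']
  simp only [mul_add, Finset.sum_add_distrib]
  ring

theorem tot_mul (c : ℝ) (φ : InfinitePlace L → ℝ) (ψ : FinitePlace L → ℝ) :
    tot (fun w => c * φ w) (fun w => c * ψ w) = c * tot φ ψ := by
  unfold tot
  rw [← mul_finsum, mul_add, Finset.mul_sum]
  congr 1
  exact Finset.sum_congr rfl fun w _ => by ring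

theorem tot_le {φ φ' : InfinitePlace L → ℝ} {ψ ψ' : FinitePlace L → ℝ} (h : FS ψ) (h' : FS ψ')
    (hφ : ∀ w, φ w ≤ φ' w) (hψ : ∀ w, ψ w ≤ ψ' w) : tot φ ψ ≤ tot φ' ψ' := by
  unfold tot
  refine add_le_add (Finset.sum_le_sum fun w _ => ?_) (finsum_le_finsum' h h' hψ)
  exact mul_le_mul_of_nonneg_left (hφ w) (Nat.cast_nonneg _)

theorem tot_sum {ι : Type*} (s : Finset ι) (φ : ι → InfinitePlace L → ℝ)
    (ψ : ι → FinitePlace L → ℝ) (h : ∀ i ∈ s, FS (ψ i)) :
    tot (fun w => ∑ i ∈ s, φ i w) (fun w => ∑ i ∈ s, ψ i w) = ∑ i ∈ s, tot (φ i) (ψ i) := by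
  unfold tot
  rw [Finset.sum_add_distrib, finsum_sum_comm s (fun w i => ψ i w) h]
  congr 1
  simp only [Finset.mul_sum]
  exact Finset.sum_comm

theorem tot_nonneg {φ : InfinitePlace L → ℝ} {ψ : FinitePlace L → ℝ} (hφ : ∀ w, 0 ≤ φ w)
    (hψ : ∀ w, 0 ≤ ψ w) : 0 ≤ tot φ ψ :=
  add_nonneg (Finset.sum_nonneg fun w _ => mul_nonneg (Nat.cast_nonneg _) (hφ w))
    (finsum_nonneg hψ)

theorem tot_const (c : ℝ) : tot (L := L) (fun _ => c) (fun _ => 0) = Module.finrank ℚ L * c := by
  unfold tot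
  rw [finsum_zero, add_zero, ← Finset.sum_mul, ← Nat.cast_sum, InfinitePlace.sum_mult_eq]

theorem FS.add {ψ ψ' : FinitePlace L → ℝ} (h : FS ψ) (h' : FS ψ') : FS fun w => ψ w + ψ' w :=
  (h.union h').subset (Function.support_add ψ ψ')

theorem FS.mul (c : ℝ) {ψ : FinitePlace L → ℝ} (h : FS ψ) : FS fun w => c * ψ w :=
  h.subset fun w hw => by
    simp only [Function.mem_support] at hw ⊢
    exact right_ne_zero_of_mul hw

theorem FS.sum {ι : Type*} (s : Finset ι) {ψ : ι → FinitePlace L → ℝ} (h : ∀ i ∈ s, FS (ψ i)) :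
    FS fun w => ∑ i ∈ s, ψ i w := by
  classical
  refine ((s.finite_toSet.biUnion h)).subset fun w hw => ?_
  obtain ⟨i, hi, hiw⟩ := Finset.exists_ne_zero_of_sum_ne_zero hw
  exact Set.mem_biUnion hi hiw

/-- product formula -/
theorem tot_log_eq_zero {x : L} (hx : x ≠ 0) :
    tot (fun w => Real.log (w x)) (fun w => Real.log (w x)) = 0 := by
  have h := NumberField.prod_abs_eq_one (K := L) hx
  have h1 : ∏ w : InfinitePlace L, w x ^ w.mult ≠ 0 :=
    Finset.prod_ne_zero_iff.2 fun w _ => pow_ne_zero _ (w.pos_iff.2 hx).ne'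
  have h2 := congrArg Real.log h
  have h3 : ∏ᶠ w : FinitePlace L, w x ≠ 0 := right_ne_zero_of_mul (by rw [h]; exact one_ne_zero)
  rw [Real.log_mul h1 h3, Real.log_one,
    Real.log_prod (fun w _ => pow_ne_zero _ (w.pos_iff.2 hx).ne'),
    Real.log_finprod (fun w => FinitePlace.pos_iff.2 hx)] at h2
  unfold tot
  rw [← h2]
  congr 1
  exact Finset.sum_congr rfl fun w _ => by rw [Real.log_pow]

theorem fs_log {x : L} (hx : x ≠ 0) : FS fun w : FinitePlace L => Real.log (w x) := by
  refine (FinitePlace.hasFiniteMulSupport hx).subset fun w hw => ?_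
  simp only [Function.mem_support, Function.mem_mulSupport] at hw ⊢
  intro h1
  exact hw (by rw [h1, Real.log_one])

/-- the logarithmic height as a sum over places -/
theorem logHeight_eq_tot (x : L) : Height.logHeight₁ x =
    tot (fun w => Real.posLog (w x)) (fun w => Real.posLog (w x)) := by
  rw [NumberField.logHeight₁_eq]
  rfl

theorem fs_posLog (x : L) : FS fun w : FinitePlace L => Real.posLog (w x) := by
  rcases eq_or_ne x 0 with rfl | hx
  · simp [FS]
  refine (fs_log hx).subset fun w hw => ?_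
  simp only [Function.mem_support] at hw ⊢
  intro h1
  exact hw (by simp [Real.posLog_def, h1])

/-- relative size of `z` with respect to the radius `R` -/
noncomputable def exc (v : AbsoluteValue L ℝ) (R : ℝ) (x : L) : ℝ := Real.log (max 1 (v x / R))

theorem exc_nonneg (v : AbsoluteValue L ℝ) (R : ℝ) (x : L) : 0 ≤ exc v R x :=
  Real.log_nonneg (le_max_left _ _)

theorem le_mul_exc (v : AbsoluteValue L ℝ) {R : ℝ} (hR : 0 < R) (x : L) :
    v x ≤ R * max 1 (v x / R) := by
  calc v x = R * (v x / R) := by field_simp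
    _ ≤ R * max 1 (v x / R) := mul_le_mul_of_nonneg_left (le_max_right _ _) hR.le

theorem exc_le_posLog (v : AbsoluteValue L ℝ) {R : ℝ} (hR : 1 ≤ R) (x : L) :
    exc v R x ≤ Real.posLog (v x) := by
  unfold exc
  rw [Real.posLog_eq_log_max_one (v.nonneg x)]
  refine Real.log_le_log (by positivity) ?_
  refine max_le_max le_rfl ?_
  exact div_le_self (v.nonneg x) hR

theorem fs_exc {RF : FinitePlace L → ℝ} (hRF : ∀ w, 1 ≤ RF w) (x : L) :
    FS fun w : FinitePlace L => exc w.val (RF w) x := by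
  refine (fs_posLog x).subset fun w hw => ?_
  simp only [Function.mem_support] at hw ⊢
  intro h1
  have h2 := exc_le_posLog w.val (hRF w) x
  have h3 : Real.posLog (w.val x) = 0 := h1
  exact hw (le_antisymm (h2.trans h3.le) (exc_nonneg _ _ _))

theorem tot_exc_le {RI : InfinitePlace L → ℝ} {RF : FinitePlace L → ℝ} (hRI : ∀ w, 1 ≤ RI w)
    (hRF : ∀ w, 1 ≤ RF w) (x : L) :
    tot (fun w => exc w.val (RI w) x) (fun w => exc w.val (RF w) x) ≤ Height.logHeight₁ x := by
  rw [logHeight_eq_tot]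
  exact tot_le (fs_exc hRF x) (fs_posLog x) (fun w => exc_le_posLog w.val (hRI w) x)
    fun w => exc_le_posLog w.val (hRF w) x

end Pool.Agent.Lib_helper5.DLH
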