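import Pool.Agent.Lib_helper5.DLH.Hat

/-!
# Thin places and the counting theorem
-/

set_option autoImplicit false
set_option linter.unusedSectionVars false

open Polynomial Finset NumberField Filter Topology

namespace Pool.Agent.Lib_helper5.DLH

variable {L : Type*} [Field L] [NumberField L]

/-- thinness of the set `S` at the places of `L`, with a constant `B` -/
structure Thin (d : ℕ) (f : L[X]) (S : Set L) (B : ℝ) extends Rad d f where
  TI : InfinitePlace L → ℝ
  TF : FinitePlace L → ℝ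
  hB : 1 ≤ B
  hTI : ∀ w, 0 ≤ TI w
  hTF : ∀ w, 0 ≤ TF w
  t1 : ∀ (w : FinitePlace L), ∀ z ∈ S, TF w ≤ d * (Real.log (RF w) + exc w.val (RF w) z)
  t2 : ∀ (w : InfinitePlace L), ∀ z ∈ S,
    TI w ≤ d * (Real.log (RI w) + exc w.val (4 * RI w) z + Real.log 8)
  g1 : ∀ (w : FinitePlace L), 0 < TF w → ∀ Z : Finset L, Z.Nonempty → (Z : Set L) ⊆ S →
    (∀ z ∈ Z, w z ≤ RF w ∧ w (f.eval z) ≤ RF w) →
    ∃ G : L[X], G.Monic ∧ 1 ≤ G.natDegree ∧ G.natDegree ≤ d ∧
      ∀ z ∈ Z, w (G.eval z) ≤ Real.exp (-(TF w))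
  g2 : ∀ (w : InfinitePlace L), Real.log B < TI w → ∀ Z : Finset L, Z.Nonempty →
    (Z : Set L) ⊆ S → (∀ z ∈ Z, w z ≤ 4 * RI w ∧ w (f.eval z) ≤ 4 * RI w) →
    ∃ G : L[X], G.Monic ∧ 1 ≤ G.natDegree ∧ G.natDegree ≤ d ∧
      ∀ z ∈ Z, w (G.eval z) ≤ B * Real.exp (-(TI w))

/-- the coefficient of the gain -/
noncomputable def bN (N d : ℕ) : ℝ := max 0 ((N : ℝ) * (N - 1) / (2 * d) - N)

/-- the coefficient of the radii -/
noncomputable def aN (N q : ℕ) : ℝ := (N : ℝ) ^ 2 / (2 * q) + N * q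

/-- the coefficient of the excess -/
noncomputable def cN (N d q : ℕ) : ℝ := N + q + 2 * d * bN N d

/-- the archimedean constant -/
noncomputable def kN (N d q : ℕ) (B : ℝ) : ℝ :=
  Real.log N.factorial + (N : ℝ) ^ 2 * Real.log B + bN N d * Real.log B +
    (aN N q + N * d) * Real.log 4 + bN N d * (d * Real.log 8)

theorem bN_nonneg (N d : ℕ) : 0 ≤ bN N d := le_max_left _ _

theorem aN_nonneg (N q : ℕ) : 0 ≤ aN N q := by unfold aN; positivity

theorem bN_le_dsum (N : ℕ) {M d : ℕ} (hM : 1 ≤ M) (hd : M ≤ d) : bN N d ≤ dsum N M :=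
  max_le (Nat.cast_nonneg _) (le_dsum N hM hd)

/-- the iterates of `f` as polynomials -/
noncomputable def itp (f : L[X]) (k : ℕ) : L[X] := f.comp^[k] X

theorem itp_eval (f : L[X]) (k : ℕ) (z : L) : (itp f k).eval z = (fun x => f.eval x)^[k] z := by
  unfold itp
  rw [Polynomial.iterate_comp_eval, eval_X]

theorem itp_natDegree (f : L[X]) (k : ℕ) : (itp f k).natDegree = f.natDegree ^ k := by
  unfold itp
  rw [natDegree_iterate_comp, natDegree_X, mul_one]

theorem itp_monic {f : L[X]} (hf : f.Monic) (h2 : 2 ≤ f.natDegree) (k : ℕ) : (itp f k).Monic := by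
  induction k with
  | zero => simpa [itp] using monic_X
  | succ k ih =>
    unfold itp at ih ⊢
    rw [Function.iterate_succ_apply']
    refine hf.comp ih ?_
    rw [natDegree_iterate_comp, natDegree_X, mul_one]
    positivity

/-- the local excess of a point with its images -/
noncomputable def Rad.tF {d : ℕ} {f : L[X]} (P : Rad d f) (k : ℕ) (w : FinitePlace L) (z : L) : ℝ :=
  P.xF w z + P.xF w ((fun x => f.eval x)^[1] z) + P.xF w ((fun x => f.eval x)^[2] z) +
    P.xF w ((fun x => f.eval x)^[k] z)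

/-- the local excess of a point with its images -/
noncomputable def Rad.tI {d : ℕ} {f : L[X]} (P : Rad d f) (k : ℕ) (w : InfinitePlace L) (z : L) :
    ℝ :=
  P.xI w z + P.xI w ((fun x => f.eval x)^[1] z) + P.xI w ((fun x => f.eval x)^[2] z) +
    P.xI w ((fun x => f.eval x)^[k] z)

namespace Thin

variable {d : ℕ} {f : L[X]} {S : Set L} {B : ℝ} (P : Thin d f S B)

/-- general bound, finite place -/
theorem genF {N k : ℕ} (z : Fin N → L) (hz : Function.Injective z) (w : FinitePlace L) :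
    Real.log (w (vdm z)) ≤ (∑ i, (N * P.xF w ((fun x => f.eval x)^[k] (z i)) +
      (d ^ k : ℕ) * P.xF w (z i))) + aN N (d ^ k) * Real.log (P.RF w) := by
  have hR0 : 0 < P.RF w := zero_lt_one.trans_le (P.hRF w)
  have hdeg : (itp f k).natDegree = d ^ k := by rw [itp_natDegree, P.deg]
  have hq : 1 ≤ d ^ k := Nat.one_le_pow _ _ (by linarith [P.d2])
  have h := log_vdm_le w.val z hz (itp_monic P.monic (by rw [P.deg]; exact P.d2) k)
    (by rw [hdeg]; exact hq) hR0 (P.hRF w)
    (fun i => max 1 (w.val ((itp f k).eval (z i)) / P.RF w)) (fun i => max 1 (w.val (z i) / P.RF w))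
    (fun i => le_max_left _ _) (fun i => le_max_left _ _) (fun i => le_mul_exc w.val hR0 _)
    (fun i => le_mul_exc w.val hR0 _) 0
    (Or.inr ⟨rfl, fun x y => FinitePlace.add_le w x y⟩)
  rw [zero_add, hdeg] at h
  simp only [itp_eval] at h
  refine (show Real.log (w (vdm z)) ≤ _ from h).trans ?_
  refine add_le_add le_rfl ?_
  have h1 := dsum_le N hq
  have h2 : (rsum N (d ^ k) : ℝ) ≤ N * (d ^ k : ℕ) := by exact_mod_cast rsum_le N hq
  have h3 := P.logRF_nonneg w
  unfold aN
  nlinarith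

/-- general bound, infinite place -/
theorem genI {N k : ℕ} (z : Fin N → L) (hz : Function.Injective z) (w : InfinitePlace L) :
    Real.log (w (vdm z)) ≤ Real.log N.factorial +
      (∑ i, (N * P.xI w ((fun x => f.eval x)^[k] (z i)) +
      (d ^ k : ℕ) * P.xI w (z i))) + aN N (d ^ k) * Real.log (4 * P.RI w) := by
  have hR0 : 0 < 4 * P.RI w := zero_lt_one.trans_le (P.four_RI w)
  have hdeg : (itp f k).natDegree = d ^ k := by rw [itp_natDegree, P.deg]
  have hq : 1 ≤ d ^ k := Nat.one_le_pow _ _ (by linarith [P.d2])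
  have h := log_vdm_le w.val z hz (itp_monic P.monic (by rw [P.deg]; exact P.d2) k)
    (by rw [hdeg]; exact hq) hR0 (P.four_RI w)
    (fun i => max 1 (w.val ((itp f k).eval (z i)) / (4 * P.RI w)))
    (fun i => max 1 (w.val (z i) / (4 * P.RI w)))
    (fun i => le_max_left _ _) (fun i => le_max_left _ _) (fun i => le_mul_exc w.val hR0 _)
    (fun i => le_mul_exc w.val hR0 _) _ (Or.inl rfl)
  rw [hdeg] at h
  simp only [itp_eval] at h
  refine (show Real.log (w (vdm z)) ≤ _ from h).trans ?_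
  refine add_le_add le_rfl ?_
  have h1 := dsum_le N hq
  have h2 : (rsum N (d ^ k) : ℝ) ≤ N * (d ^ k : ℕ) := by exact_mod_cast rsum_le N hq
  have h3 : 0 ≤ Real.log (4 * P.RI w) := Real.log_nonneg (P.four_RI w)
  unfold aN
  nlinarith

theorem sum_le_tF {N k : ℕ} (z : Fin N → L) (w : FinitePlace L) :
    (∑ i, (N * P.xF w ((fun x => f.eval x)^[k] (z i)) + (d ^ k : ℕ) * P.xF w (z i))) ≤
      (N + (d ^ k : ℕ)) * ∑ i, P.tF k w (z i) := by
  rw [Finset.mul_sum]
  refine Finset.sum_le_sum fun i _ => ?_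
  unfold Rad.tF
  have h1 := P.xF_nonneg w (z i)
  have h2 := P.xF_nonneg w ((fun x => f.eval x)^[1] (z i))
  have h3 := P.xF_nonneg w ((fun x => f.eval x)^[2] (z i))
  have h4 := P.xF_nonneg w ((fun x => f.eval x)^[k] (z i))
  have h5 : (0 : ℝ) ≤ N := Nat.cast_nonneg _
  have h6 : (0 : ℝ) ≤ (d ^ k : ℕ) := Nat.cast_nonneg _
  have h7 := mul_nonneg h5 h1
  have h8 := mul_nonneg h5 h2
  have h9 := mul_nonneg h5 h3
  have h10 := mul_nonneg h6 h2
  have h11 := mul_nonneg h6 h3
  have h12 := mul_nonneg h6 h4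
  linarith

theorem sum_le_tI {N k : ℕ} (z : Fin N → L) (w : InfinitePlace L) :
    (∑ i, (N * P.xI w ((fun x => f.eval x)^[k] (z i)) + (d ^ k : ℕ) * P.xI w (z i))) ≤
      (N + (d ^ k : ℕ)) * ∑ i, P.tI k w (z i) := by
  rw [Finset.mul_sum]
  refine Finset.sum_le_sum fun i _ => ?_
  unfold Rad.tI
  have h1 := P.xI_nonneg w (z i)
  have h2 := P.xI_nonneg w ((fun x => f.eval x)^[1] (z i))
  have h3 := P.xI_nonneg w ((fun x => f.eval x)^[2] (z i))
  have h4 := P.xI_nonneg w ((fun x => f.eval x)^[k] (z i))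
  have h5 : (0 : ℝ) ≤ N := Nat.cast_nonneg _
  have h6 : (0 : ℝ) ≤ (d ^ k : ℕ) := Nat.cast_nonneg _
  have h7 := mul_nonneg h5 h1
  have h8 := mul_nonneg h5 h2
  have h9 := mul_nonneg h5 h3
  have h10 := mul_nonneg h6 h2
  have h11 := mul_nonneg h6 h3
  have h12 := mul_nonneg h6 h4
  linarith

theorem tF_nonneg (k : ℕ) (w : FinitePlace L) (z : L) : 0 ≤ P.tF k w z := by
  unfold Rad.tF
  have h1 := P.xF_nonneg w z
  have h2 := P.xF_nonneg w ((fun x => f.eval x)^[1] z)
  have h3 := P.xF_nonneg w ((fun x => f.eval x)^[2] z)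
  have h4 := P.xF_nonneg w ((fun x => f.eval x)^[k] z)
  linarith

theorem tI_nonneg (k : ℕ) (w : InfinitePlace L) (z : L) : 0 ≤ P.tI k w z := by
  unfold Rad.tI
  have h1 := P.xI_nonneg w z
  have h2 := P.xI_nonneg w ((fun x => f.eval x)^[1] z)
  have h3 := P.xI_nonneg w ((fun x => f.eval x)^[2] z)
  have h4 := P.xI_nonneg w ((fun x => f.eval x)^[k] z)
  linarith

/-- the local inequality at a finite place -/
theorem locF {N k : ℕ} (hN : 1 ≤ N) (hk : 1 ≤ k) (z : Fin N → L) (hz : Function.Injective z)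
    (hzS : ∀ i, z i ∈ S) (w : FinitePlace L) :
    Real.log (w (vdm z)) ≤ -bN N d * P.TF w + aN N (d ^ k) * Real.log (P.RF w) +
      cN N d (d ^ k) * ∑ i, P.tF k w (z i) := by
  classical
  have hR0 : 0 < P.RF w := zero_lt_one.trans_le (P.hRF w)
  have hlR := P.logRF_nonneg w
  have hb := bN_nonneg N d
  have hT := P.hTF w
  have hd0 : (0 : ℝ) ≤ d := Nat.cast_nonneg _
  have htsum : 0 ≤ ∑ i, P.tF k w (z i) := Finset.sum_nonneg fun i _ => P.tF_nonneg k w (z i)
  have hgen := (P.genF (k := k) z hz w).trans (add_le_add (P.sum_le_tF z w) le_rfl)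
  have hcN : ((N : ℝ) + (d ^ k : ℕ)) * (∑ i, P.tF k w (z i)) + 2 * d * bN N d *
      (∑ i, P.tF k w (z i)) = cN N d (d ^ k) * ∑ i, P.tF k w (z i) := by
    unfold cN; ring
  rcases hT.eq_or_lt with hT0 | hTpos
  · rw [← hT0, mul_zero, zero_add]
    have h1 : 0 ≤ 2 * (d : ℝ) * bN N d * (∑ i, P.tF k w (z i)) := by positivity
    linarith
  by_cases hcl : ∀ i, w (z i) ≤ P.RF w ∧ w (f.eval (z i)) ≤ P.RF w
  · obtain ⟨G, hG, hG1, hGd, hGz⟩ := P.g1 w hTpos (Finset.univ.image z)
      ⟨z ⟨0, hN⟩, Finset.mem_image_of_mem z (Finset.mem_univ _)⟩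
      (by intro x hx; simp only [Finset.coe_image, Finset.coe_univ, Set.image_univ,
            Set.mem_range] at hx; obtain ⟨i, rfl⟩ := hx; exact hzS i)
      (by intro x hx; simp only [Finset.mem_image, Finset.mem_univ, true_and] at hx
          obtain ⟨i, rfl⟩ := hx; exact hcl i)
    have h := log_vdm_le w.val z hz hG hG1 (Real.exp_pos (-(P.TF w))) (P.hRF w)
      (fun _ => 1) (fun _ => 1) (fun _ => le_rfl) (fun _ => le_rfl)
      (fun i => by rw [mul_one]; exact hGz _ (Finset.mem_image_of_mem z (Finset.mem_univ _)))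
      (fun i => by rw [mul_one]; exact (hcl i).1) 0
      (Or.inr ⟨rfl, fun x y => FinitePlace.add_le w x y⟩)
    simp only [Real.log_one, mul_zero, add_zero, Finset.sum_const_zero, zero_add,
      Real.log_exp] at h
    have h1 : bN N d * P.TF w ≤ dsum N G.natDegree * P.TF w :=
      mul_le_mul_of_nonneg_right (bN_le_dsum N hG1 hGd) hT
    have h2 : (rsum N G.natDegree : ℝ) ≤ aN N (d ^ k) := by
      have h3 : (rsum N G.natDegree : ℝ) ≤ N * G.natDegree := by exact_mod_cast rsum_le N hG1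
      have h4 : (G.natDegree : ℝ) ≤ (d ^ k : ℕ) := by
        exact_mod_cast hGd.trans (Nat.le_self_pow (by omega) d)
      unfold aN
      have h5 : (0 : ℝ) ≤ (N : ℝ) ^ 2 / (2 * (d ^ k : ℕ)) := by positivity
      have h6 : (N : ℝ) * G.natDegree ≤ N * (d ^ k : ℕ) :=
        mul_le_mul_of_nonneg_left h4 (Nat.cast_nonneg _)
      linarith
    have h7 : (rsum N G.natDegree : ℝ) * Real.log (P.RF w) ≤ aN N (d ^ k) * Real.log (P.RF w) :=
      mul_le_mul_of_nonneg_right h2 hlR
    have h8 : 0 ≤ cN N d (d ^ k) * ∑ i, P.tF k w (z i) := by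
      unfold cN; positivity
    refine (show Real.log (w (vdm z)) ≤ _ from h).trans ?_
    linarith
  · -- not clean
    rw [not_forall] at hcl
    obtain ⟨i, hi⟩ := hcl
    have hti : P.tF k w (z i) ≤ ∑ i, P.tF k w (z i) :=
      Finset.single_le_sum (fun j _ => P.tF_nonneg k w (z j)) (Finset.mem_univ i)
    have e1 := P.xF_nonneg w (z i)
    have e2 := P.xF_nonneg w ((fun x => f.eval x)^[1] (z i))
    have e3 := P.xF_nonneg w ((fun x => f.eval x)^[2] (z i))
    have e4 := P.xF_nonneg w ((fun x => f.eval x)^[k] (z i))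
    have hlt : Real.log (P.RF w) ≤ P.tF k w (z i) := by
      unfold Rad.tF
      rcases le_or_gt (w (z i)) (P.RF w) with h1 | h1
      · have h2 : P.RF w < w (f.eval (z i)) := by
          by_contra h3
          exact hi ⟨h1, not_lt.1 h3⟩
        have h4 := P.xF_escape w _ h2
        have h5 : (fun x => f.eval x)^[2] (z i) = f.eval (f.eval (z i)) := rfl
        rw [← h5] at h4
        linarith
      · have h4 := P.xF_escape w _ h1
        have h5 : (fun x => f.eval x)^[1] (z i) = f.eval (z i) := rfl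
        rw [← h5] at h4
        linarith
    have hxi : P.xF w (z i) ≤ P.tF k w (z i) := by unfold Rad.tF; linarith
    have hTle : P.TF w ≤ 2 * d * ∑ i, P.tF k w (z i) := by
      have h1 := P.t1 w (z i) (hzS i)
      have h2 : exc w.val (P.RF w) (z i) = P.xF w (z i) := rfl
      rw [h2] at h1
      have h3 : Real.log (P.RF w) + P.xF w (z i) ≤ 2 * ∑ i, P.tF k w (z i) := by linarith
      calc P.TF w ≤ d * (Real.log (P.RF w) + P.xF w (z i)) := h1
        _ ≤ d * (2 * ∑ i, P.tF k w (z i)) := mul_le_mul_of_nonneg_left h3 hd0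
        _ = _ := by ring
    have h9 : bN N d * P.TF w ≤ bN N d * (2 * d * ∑ i, P.tF k w (z i)) :=
      mul_le_mul_of_nonneg_left hTle hb
    have h10 : bN N d * (2 * d * ∑ i, P.tF k w (z i)) = 2 * d * bN N d *
      (∑ i, P.tF k w (z i)) := by ring
    linarith

/-- the local inequality at an infinite place -/
theorem locI {N k : ℕ} (hN : 1 ≤ N) (z : Fin N → L) (hz : Function.Injective z)
    (hzS : ∀ i, z i ∈ S) (w : InfinitePlace L) :
    Real.log (w (vdm z)) ≤ -bN N d * P.TI w + (aN N (d ^ k) + N * d) * Real.log (P.RI w) +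
      cN N d (d ^ k) * (∑ i, P.tI k w (z i)) + kN N d (d ^ k) B := by
  classical
  have hR0 : 0 < P.RI w := zero_lt_one.trans_le (P.hRI w)
  have hlR := P.logRI_nonneg w
  have hb := bN_nonneg N d
  have hT := P.hTI w
  have hd0 : (0 : ℝ) ≤ d := Nat.cast_nonneg _
  have hN0 : (0 : ℝ) ≤ N := Nat.cast_nonneg _
  have ha := aN_nonneg N (d ^ k)
  have hlB : 0 ≤ Real.log B := Real.log_nonneg P.hB
  have hl4 : 0 ≤ Real.log 4 := Real.log_nonneg (by norm_num)
  have hl8 : 0 ≤ Real.log 8 := Real.log_nonneg (by norm_num)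
  have hlN : 0 ≤ Real.log N.factorial := Real.log_nonneg (by exact_mod_cast Nat.factorial_pos N)
  have hNB : 0 ≤ (N : ℝ) ^ 2 * Real.log B := by positivity
  have hbB : 0 ≤ bN N d * Real.log B := by positivity
  have hb8 : 0 ≤ bN N d * (d * Real.log 8) := by positivity
  have hNd4 : 0 ≤ (N : ℝ) * d * Real.log 4 := by positivity
  have hNdR : 0 ≤ (N : ℝ) * d * Real.log (P.RI w) := by positivity
  have htsum : 0 ≤ ∑ i, P.tI k w (z i) := Finset.sum_nonneg fun i _ => P.tI_nonneg k w (z i)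
  have hgen := P.genI (k := k) z hz w
  have hlog4 : Real.log (4 * P.RI w) = Real.log 4 + Real.log (P.RI w) :=
    Real.log_mul (by norm_num) hR0.ne'
  rw [hlog4] at hgen
  have hsum := P.sum_le_tI (k := k) z w
  have hcN : ((N : ℝ) + (d ^ k : ℕ)) * (∑ i, P.tI k w (z i)) + 2 * d * bN N d *
      (∑ i, P.tI k w (z i)) = cN N d (d ^ k) * ∑ i, P.tI k w (z i) := by
    unfold cN; ring
  have hcN' : 0 ≤ 2 * (d : ℝ) * bN N d * (∑ i, P.tI k w (z i)) := by positivity
  rcases le_or_gt (P.TI w) (Real.log B) with hTB | hTB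
  · have h1 : bN N d * P.TI w ≤ bN N d * Real.log B := mul_le_mul_of_nonneg_left hTB hb
    unfold kN
    nlinarith
  by_cases hcl : ∀ i, w (z i) ≤ 4 * P.RI w ∧ w (f.eval (z i)) ≤ 4 * P.RI w
  · obtain ⟨G, hG, hG1, hGd, hGz⟩ := P.g2 w hTB (Finset.univ.image z)
      ⟨z ⟨0, hN⟩, Finset.mem_image_of_mem z (Finset.mem_univ _)⟩
      (by intro x hx; simp only [Finset.coe_image, Finset.coe_univ, Set.image_univ,
            Set.mem_range] at hx; obtain ⟨i, rfl⟩ := hx; exact hzS i)
      (by intro x hx; simp only [Finset.mem_image, Finset.mem_univ, true_and] at hx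
          obtain ⟨i, rfl⟩ := hx; exact hcl i)
    have hB0 : 0 < B := zero_lt_one.trans_le P.hB
    have h := log_vdm_le w.val z hz hG hG1 (mul_pos hB0 (Real.exp_pos (-(P.TI w)))) (P.four_RI w)
      (fun _ => 1) (fun _ => 1) (fun _ => le_rfl) (fun _ => le_rfl)
      (fun i => by rw [mul_one]; exact hGz _ (Finset.mem_image_of_mem z (Finset.mem_univ _)))
      (fun i => by rw [mul_one]; exact (hcl i).1) _ (Or.inl rfl)
    simp only [Real.log_one, mul_zero, add_zero, Finset.sum_const_zero] at h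
    rw [Real.log_mul hB0.ne' (Real.exp_pos _).ne', Real.log_exp, hlog4] at h
    have h1 : bN N d * P.TI w ≤ dsum N G.natDegree * P.TI w :=
      mul_le_mul_of_nonneg_right (bN_le_dsum N hG1 hGd) hT
    have h2 : (rsum N G.natDegree : ℝ) ≤ N * d := by
      have h3 : (rsum N G.natDegree : ℝ) ≤ N * G.natDegree := by exact_mod_cast rsum_le N hG1
      have h4 : (G.natDegree : ℝ) ≤ d := by exact_mod_cast hGd
      have h6 : (N : ℝ) * G.natDegree ≤ N * d := mul_le_mul_of_nonneg_left h4 hN0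
      linarith
    have h7 : (rsum N G.natDegree : ℝ) * (Real.log 4 + Real.log (P.RI w)) ≤
        N * d * (Real.log 4 + Real.log (P.RI w)) :=
      mul_le_mul_of_nonneg_right h2 (by linarith)
    have h5 : (dsum N G.natDegree : ℝ) * Real.log B ≤ (N : ℝ) ^ 2 * Real.log B :=
      mul_le_mul_of_nonneg_right (dsum_le_sq N) hlB
    have h8 : 0 ≤ cN N d (d ^ k) * ∑ i, P.tI k w (z i) := by
      unfold cN; positivity
    have h9 : 0 ≤ aN N (d ^ k) * Real.log (P.RI w) := mul_nonneg ha hlR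
    have h10 : 0 ≤ aN N (d ^ k) * Real.log 4 := mul_nonneg ha hl4
    refine (show Real.log (w (vdm z)) ≤ _ from h).trans ?_
    unfold kN
    linarith
  · rw [not_forall] at hcl
    obtain ⟨i, hi⟩ := hcl
    have hti : P.tI k w (z i) ≤ ∑ i, P.tI k w (z i) :=
      Finset.single_le_sum (fun j _ => P.tI_nonneg k w (z j)) (Finset.mem_univ i)
    have e1 := P.xI_nonneg w (z i)
    have e2 := P.xI_nonneg w ((fun x => f.eval x)^[1] (z i))
    have e3 := P.xI_nonneg w ((fun x => f.eval x)^[2] (z i))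
    have e4 := P.xI_nonneg w ((fun x => f.eval x)^[k] (z i))
    have hlt : Real.log (P.RI w) ≤ P.tI k w (z i) := by
      unfold Rad.tI
      rcases le_or_gt (w (z i)) (4 * P.RI w) with h1 | h1
      · have h2 : 4 * P.RI w < w (f.eval (z i)) := by
          by_contra h3
          exact hi ⟨h1, not_lt.1 h3⟩
        have h4 := P.xI_escape w _ h2
        have h5 : (fun x => f.eval x)^[2] (z i) = f.eval (f.eval (z i)) := rfl
        rw [← h5] at h4
        linarith
      · have h4 := P.xI_escape w _ h1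
        have h5 : (fun x => f.eval x)^[1] (z i) = f.eval (z i) := rfl
        rw [← h5] at h4
        linarith
    have hxi : P.xI w (z i) ≤ P.tI k w (z i) := by unfold Rad.tI; linarith
    have hTle : P.TI w ≤ 2 * d * (∑ i, P.tI k w (z i)) + d * Real.log 8 := by
      have h1 := P.t2 w (z i) (hzS i)
      have h2 : exc w.val (4 * P.RI w) (z i) = P.xI w (z i) := rfl
      rw [h2] at h1
      have h3 : Real.log (P.RI w) + P.xI w (z i) + Real.log 8 ≤
        2 * (∑ i, P.tI k w (z i)) + Real.log 8 := by linarith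
      calc P.TI w ≤ d * (Real.log (P.RI w) + P.xI w (z i) + Real.log 8) := h1
        _ ≤ d * (2 * (∑ i, P.tI k w (z i)) + Real.log 8) := mul_le_mul_of_nonneg_left h3 hd0
        _ = _ := by ring
    have h9 : bN N d * P.TI w ≤ bN N d * (2 * d * (∑ i, P.tI k w (z i)) + d * Real.log 8) :=
      mul_le_mul_of_nonneg_left hTle hb
    have h10 : bN N d * (2 * d * (∑ i, P.tI k w (z i)) + d * Real.log 8) = 2 * d * bN N d *
      (∑ i, P.tI k w (z i)) + bN N d * (d * Real.log 8) := by ring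
    unfold kN
    nlinarith

end Thin

end Pool.Agent.Lib_helper5.DLH
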