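import Pool.Agent.Lib_helper5.DLH.Core

/-!
# The counting theorem
-/

set_option autoImplicit false
set_option linter.unusedSectionVars false

open Polynomial Finset NumberField Filter Topology

namespace Pool.Agent.Lib_helper5.DLH

variable {L : Type*} [Field L] [NumberField L]

namespace Thin

variable {d : ℕ} {f : L[X]} {S : Set L} {B : ℝ} (P : Thin d f S B)

theorem fsT {z : L} (hz : z ∈ S) : FS P.TF := by
  refine ((P.fs.union (P.fsX z))).subset fun w hw => ?_
  by_contra hc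
  rw [Set.mem_union, not_or, Function.mem_support, Function.mem_support, not_not, not_not] at hc
  have h1 := P.t1 w z hz
  have h2 : exc w.val (P.RF w) z = P.xF w z := rfl
  rw [h2, hc.1, hc.2, add_zero, mul_zero] at h1
  exact hw (le_antisymm h1 (P.hTF w))

/-- the total of the local excesses -/
theorem tot_t (k : ℕ) (z : L) : tot (fun w => P.tI k w z) (fun w => P.tF k w z) ≤
    (1 + d + (d : ℝ) ^ 2 + (d : ℝ) ^ k) * hat f d z := by
  have h : tot (fun w => P.tI k w z) (fun w => P.tF k w z) =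
      P.xx z + P.xx ((fun x => f.eval x)^[1] z) + P.xx ((fun x => f.eval x)^[2] z) +
        P.xx ((fun x => f.eval x)^[k] z) := by
    unfold Rad.tI Rad.tF Rad.xx
    rw [tot_add (((P.fsX _).add (P.fsX _)).add (P.fsX _)) (P.fsX _),
      tot_add ((P.fsX _).add (P.fsX _)) (P.fsX _), tot_add (P.fsX _) (P.fsX _)]
  rw [h]
  have h0 := P.xx_le_hat z
  have h1 := P.xx_le_hat ((fun x => f.eval x)^[1] z)
  have h2 := P.xx_le_hat ((fun x => f.eval x)^[2] z)
  have h3 := P.xx_le_hat ((fun x => f.eval x)^[k] z)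
  rw [P.hat_iter] at h1 h2 h3
  rw [pow_one] at h1
  linarith

/-- the global inequality -/
theorem global {N k : ℕ} (hN : 1 ≤ N) (hk : 1 ≤ k) (z : Fin N → L) (hz : Function.Injective z)
    (hzS : ∀ i, z i ∈ S) (δ : ℝ) (hδ : ∀ i, hat f d (z i) ≤ δ) :
    0 ≤ -bN N d * tot P.TI P.TF + (aN N (d ^ k) + N * d) * P.hR +
      cN N d (d ^ k) * (N * ((1 + d + (d : ℝ) ^ 2 + (d : ℝ) ^ k) * δ)) +
      Module.finrank ℚ L * kN N d (d ^ k) B := by
  have hcN : 0 ≤ cN N d (d ^ k) := by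
    unfold cN
    have := bN_nonneg N d
    positivity
  have hfsT := P.fsT (hzS ⟨0, hN⟩)
  have hfst : FS fun w => ∑ i, P.tF k w (z i) := FS.sum _ fun i _ => by
    unfold Rad.tF
    exact (((P.fsX _).add (P.fsX _)).add (P.fsX _)).add (P.fsX _)
  have h0 := tot_log_eq_zero (vdm_ne_zero hz)
  have h1 : tot (L := L) (fun w => Real.log (w (vdm z))) (fun w => Real.log (w (vdm z))) ≤
      tot (L := L) (fun w => ((-bN N d * P.TI w + (aN N (d ^ k) + N * d) * Real.log (P.RI w)) +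
        cN N d (d ^ k) * (∑ i, P.tI k w (z i))) + kN N d (d ^ k) B)
        (fun w => ((-bN N d * P.TF w + (aN N (d ^ k) + N * d) * Real.log (P.RF w)) +
          cN N d (d ^ k) * (∑ i, P.tF k w (z i))) + 0) := by
    refine tot_le (fs_log (vdm_ne_zero hz)) ((((hfsT.mul _).add (P.fs.mul _)).add
      (hfst.mul _)).add (by simp [FS])) (fun w => P.locI hN z hz hzS w) fun w => ?_
    rw [add_zero]
    refine (P.locF hN hk z hz hzS w).trans ?_
    have h2 : 0 ≤ (N : ℝ) * d * Real.log (P.RF w) := by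
      have := P.logRF_nonneg w
      positivity
    linarith
  rw [h0, tot_add (((hfsT.mul _).add (P.fs.mul _)).add (hfst.mul _)) (by simp [FS]),
    tot_add ((hfsT.mul _).add (P.fs.mul _)) (hfst.mul _), tot_add (hfsT.mul _) (P.fs.mul _),
    tot_mul, tot_mul, tot_mul, tot_const, tot_sum _ _ _ (fun i _ => by
      unfold Rad.tF
      exact (((P.fsX _).add (P.fsX _)).add (P.fsX _)).add (P.fsX _))] at h1
  have h2 : (∑ i, tot (fun w => P.tI k w (z i)) (fun w => P.tF k w (z i))) ≤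
      N * ((1 + d + (d : ℝ) ^ 2 + (d : ℝ) ^ k) * δ) := by
    calc (∑ i, tot (fun w => P.tI k w (z i)) (fun w => P.tF k w (z i))) ≤
        ∑ _i : Fin N, (1 + d + (d : ℝ) ^ 2 + (d : ℝ) ^ k) * δ := by
          refine Finset.sum_le_sum fun i _ => (P.tot_t k (z i)).trans ?_
          exact mul_le_mul_of_nonneg_left (hδ i) (by positivity)
      _ = _ := by simp
  have h3 := mul_le_mul_of_nonneg_left h2 hcN
  have h4 : P.hR = tot (fun w => Real.log (P.RI w)) (fun w => Real.log (P.RF w)) := rfl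
  rw [h4]
  linarith

end Thin

theorem exists_params {d : ℕ} (hd : 2 ≤ d) {ε : ℝ} (hε : 0 < ε) :
    ∃ k N : ℕ, 1 ≤ k ∧ 1 ≤ N ∧ 1 ≤ bN N d * ε - (aN N (d ^ k) + N * d) := by
  have hd0 : (0 : ℝ) < d := by
    have : (2 : ℝ) ≤ d := by exact_mod_cast hd
    linarith
  obtain ⟨k0, hk0⟩ := pow_unbounded_of_one_lt (4 * d / ε) (by exact_mod_cast hd : (1 : ℝ) < d)
  set k := k0 + 1 with hk
  set q : ℝ := ((d ^ k : ℕ) : ℝ) with hq
  have hqk : 4 * d / ε < q := by
    refine hk0.trans_le ?_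
    rw [hq, hk]
    push_cast
    rw [pow_succ]
    have h1 : (1 : ℝ) ≤ d := by exact_mod_cast (one_le_two.trans hd)
    exact le_mul_of_one_le_right (by positivity) h1
  have hq0 : 0 < q := lt_trans (by positivity) hqk
  have hq1 : 1 / (2 * q) ≤ ε / (8 * d) := by
    rw [div_le_div_iff₀ (by positivity) (by positivity)]
    rw [div_lt_iff₀ hε] at hqk
    nlinarith
  obtain ⟨N, hN⟩ := exists_nat_gt ((ε / (2 * d) + ε + q + d + 1) * (8 * d / (3 * ε)) + 1)
  have hpos : 0 ≤ (ε / (2 * d) + ε + q + d + 1) * (8 * d / (3 * ε)) := by positivity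
  have hN1 : (1 : ℝ) ≤ N := by linarith
  refine ⟨k, N, by omega, by exact_mod_cast hN1, ?_⟩
  have hb : (N : ℝ) * (N - 1) / (2 * d) - N ≤ bN N d := le_max_right _ _
  have hbε := mul_le_mul_of_nonneg_right hb hε.le
  have ha : aN N (d ^ k) ≤ (N : ℝ) ^ 2 * (ε / (8 * d)) + N * q := by
    unfold aN
    have h1 : (N : ℝ) ^ 2 / (2 * ((d ^ k : ℕ) : ℝ)) = (N : ℝ) ^ 2 * (1 / (2 * q)) := by
      rw [hq]; ring
    rw [h1]
    have h2 := mul_le_mul_of_nonneg_left hq1 (by positivity : (0 : ℝ) ≤ (N : ℝ) ^ 2)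
    linarith
  have hN2 : (ε / (2 * d) + ε + q + d + 1) ≤ (N : ℝ) * (3 * ε / (8 * d)) := by
    have h1 : (ε / (2 * d) + ε + q + d + 1) * (8 * d / (3 * ε)) ≤ N := by linarith
    have h2 := mul_le_mul_of_nonneg_right h1 (by positivity : 0 ≤ 3 * ε / (8 * d))
    have h3 : (ε / (2 * d) + ε + q + d + 1) * (8 * d / (3 * ε)) * (3 * ε / (8 * d)) =
        (ε / (2 * d) + ε + q + d + 1) := by
      field_simp
    linarith
  have key : (N : ℝ) * (ε / (2 * d) + ε + q + d + 1) ≤ N * (N * (3 * ε / (8 * d))) :=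
    mul_le_mul_of_nonneg_left hN2 (by linarith)
  have e1 : ((N : ℝ) * (N - 1) / (2 * d) - N) * ε =
      (N : ℝ) ^ 2 * (4 * (ε / (8 * d))) - N * (ε / (2 * d)) - N * ε := by
    field_simp
    ring
  have e2 : N * (N * (3 * ε / (8 * d))) = (N : ℝ) ^ 2 * (3 * (ε / (8 * d))) := by ring
  have e3 : (N : ℝ) * (ε / (2 * d) + ε + q + d + 1) =
      N * (ε / (2 * d)) + N * ε + N * q + N * d + N := by ring
  rw [e2, e3] at key
  rw [e1] at hbε
  nlinarith

/-- Few small points: uniform in all number fields. -/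
theorem count.{u} {d : ℕ} (hd : 2 ≤ d) {B : ℝ} (hB : 1 ≤ B) {ε : ℝ} (hε : 0 < ε) :
    ∃ N : ℕ, ∃ κ C : ℝ, 0 < κ ∧ 0 ≤ C ∧ ∀ (L : Type u) [Field L] [NumberField L] (f : L[X])
      (S : Set L) (P : Thin d f S B), C * Module.finrank ℚ L < P.hR →
      ε * P.hR ≤ tot P.TI P.TF → ∀ Z : Finset L, (Z : Set L) ⊆ S →
      (∀ z ∈ Z, hat f d z ≤ κ * P.hR) → Z.card < N := by
  obtain ⟨k, N, hk, hN, hp⟩ := exists_params hd hε
  set C1 : ℝ := cN N d (d ^ k) * (N * (1 + d + (d : ℝ) ^ 2 + (d : ℝ) ^ k)) with hC1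
  have hC1' : 0 ≤ C1 := by
    rw [hC1]
    unfold cN
    have := bN_nonneg N d
    positivity
  have hK : 0 ≤ kN N d (d ^ k) B := by
    have h1 := bN_nonneg N d
    have h2 := aN_nonneg N (d ^ k)
    have h3 : 0 ≤ Real.log B := Real.log_nonneg hB
    have h4 : 0 ≤ Real.log 4 := Real.log_nonneg (by norm_num)
    have h5 : 0 ≤ Real.log 8 := Real.log_nonneg (by norm_num)
    have h6 : 0 ≤ Real.log N.factorial :=
      Real.log_nonneg (by exact_mod_cast Nat.factorial_pos N)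
    unfold kN
    positivity
  refine ⟨N, 1 / (2 * C1 + 1), 2 * kN N d (d ^ k) B, by positivity, by positivity, ?_⟩
  intro L _ _ f S P hC hE Z hZS hZ
  by_contra hcard
  rw [not_lt] at hcard
  obtain ⟨Z', hZ', hcard'⟩ := Finset.exists_subset_card_eq hcard
  let e := (Z'.equivFinOfCardEq hcard').symm
  have hinj : Function.Injective fun i : Fin N => (e i : L) :=
    Subtype.val_injective.comp e.injective
  have hg := P.global hN hk (fun i => (e i : L)) hinj (fun i => hZS (hZ' (e i).2))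
    (1 / (2 * C1 + 1) * P.hR) (fun i => hZ _ (hZ' (e i).2))
  have hR0 := P.hR_nonneg
  have hb := bN_nonneg N d
  have h1 : bN N d * (ε * P.hR) ≤ bN N d * tot P.TI P.TF := mul_le_mul_of_nonneg_left hE hb
  have h2 : cN N d (d ^ k) * (N * ((1 + d + (d : ℝ) ^ 2 + (d : ℝ) ^ k) *
      (1 / (2 * C1 + 1) * P.hR))) = C1 / (2 * C1 + 1) * P.hR := by
    rw [hC1]; ring
  rw [h2] at hg
  have h3 : C1 / (2 * C1 + 1) ≤ 1 / 2 := by
    rw [div_le_div_iff₀ (by positivity) (by norm_num)]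
    linarith
  have h4 : C1 / (2 * C1 + 1) * P.hR ≤ 1 / 2 * P.hR := mul_le_mul_of_nonneg_right h3 hR0
  have h5 : 1 * P.hR ≤ (bN N d * ε - (aN N (d ^ k) + N * d)) * P.hR :=
    mul_le_mul_of_nonneg_right hp hR0
  nlinarith

end Pool.Agent.Lib_helper5.DLH
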