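import Pool.Agent.Lib_helper5.DLH.Unic

/-!
# The final statements
-/

set_option autoImplicit false
set_option linter.unusedSectionVars false

open Polynomial Finset NumberField Filter Topology

namespace Pool.Agent.Lib_helper5.DLH

section Defs

variable {L : Type*} [Field L] [NumberField L]

/-- Normalised sum over all places of `L`: the sum of `φ` over the infinite places (with
multiplicity 1 or 2) and of `ψ` over the finite places, divided by `[L : ℚ]`. -/
noncomputable def placeSum (φ : InfinitePlace L → ℝ) (ψ : FinitePlace L → ℝ) : ℝ :=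
  (∑ w, (w.mult : ℝ) * φ w + ∑ᶠ w, ψ w) / Module.finrank ℚ L

/-- The absolute logarithmic Weil height of `x`. -/
noncomputable def height (x : L) : ℝ := Height.logHeight₁ x / Module.finrank ℚ L

/-- The canonical height `lim h(f^n(x)) / (deg f)^n` of `x` for the polynomial `f`. -/
noncomputable def canHeight (f : L[X]) (x : L) : ℝ :=
  limUnder atTop fun n : ℕ => height ((fun y => f.eval y)^[n] x) / (f.natDegree : ℝ) ^ n

/-- The orbit of `x` under `f` is infinite. -/
def Wandering (f : L[X]) (x : L) : Prop :=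
  (Set.range fun n : ℕ => (fun y => f.eval y)^[n] x).Infinite

open Classical in
/-- The part of `h(c)` that comes from the real places and the `Good` finite places. -/
noncomputable def goodPart (d : ℕ) (c : L) : ℝ :=
  placeSum (fun w => if w.IsReal then Real.posLog (w c) else 0)
    (fun w => if Good d c w then Real.posLog (w c) else 0)

/-- The absolute height of the affine point `(ρ_1, ..., ρ_d)`. -/
noncomputable def rootHeight {d : ℕ} (ρ : Fin d → L) : ℝ :=
  placeSum (fun w => Real.log (rad w.val ρ)) (fun w => Real.log (rad w.val ρ))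

/-- The sum of the local gains. -/
noncomputable def farness {d : ℕ} (S : Set L) (ρ : Fin d → L) : ℝ :=
  placeSum (fun w => gain w.val S ρ) (fun w => gain w.val S ρ)

end Defs

variable {L : Type*} [Field L] [NumberField L]

theorem r_pos : (0 : ℝ) < Module.finrank ℚ L := by
  exact_mod_cast (Module.finrank_pos (R := ℚ) (M := L))

theorem placeSum_eq (φ : InfinitePlace L → ℝ) (ψ : FinitePlace L → ℝ) :
    placeSum φ ψ = tot φ ψ / Module.finrank ℚ L := rfl

theorem canHeight_eq {d : ℕ} {f : L[X]} (P : Rad d f) (x : L) :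
    canHeight f x = hat f d x / Module.finrank ℚ L := by
  unfold canHeight
  refine Tendsto.limUnder_eq ?_
  have h := (P.tendsto_hat x).div_const (Module.finrank ℚ L : ℝ)
  refine h.congr fun n => ?_
  unfold useq height
  rw [P.deg]
  ring

theorem main_count.{u} {d : ℕ} (hd : 2 ≤ d) {B : ℝ} (hB : 1 ≤ B) {ε : ℝ} (hε : 0 < ε) :
    ∃ N : ℕ, ∃ κ C : ℝ, 0 < κ ∧ 0 ≤ C ∧ ∀ (L : Type u) [Field L] [NumberField L] (f : L[X])
      (S : Set L) (P : Thin d f S B), C < placeSum (fun w => Real.log (P.RI w)) (fun w => Real.log (P.RF w)) →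
      ε * placeSum (fun w => Real.log (P.RI w)) (fun w => Real.log (P.RF w)) ≤ placeSum P.TI P.TF →
      ∀ Z : Finset L, (Z : Set L) ⊆ S →
      (∀ z ∈ Z, canHeight f z ≤ κ * placeSum (fun w => Real.log (P.RI w)) (fun w => Real.log (P.RF w))) →
      Z.card < N := by
  obtain ⟨N, κ, C, h1, h2, h3⟩ := count.{u} hd hB hε
  refine ⟨N, κ, C, h1, h2, fun L _ _ f S P hC hE Z hZ hz => h3 L f S P ?_ ?_ Z hZ fun z hzZ => ?_⟩
  · have hr := r_pos (L := L)
    rw [placeSum_eq, lt_div_iff₀ hr] at hC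
    exact hC
  · have hr := r_pos (L := L)
    rw [placeSum_eq, placeSum_eq, mul_div_assoc', div_le_div_iff_of_pos_right hr] at hE
    exact hE
  · have hr := r_pos (L := L)
    have h4 := hz z hzZ
    rw [canHeight_eq P.toRad, placeSum_eq, mul_div_assoc', div_le_div_iff_of_pos_right hr] at h4
    exact h4

theorem main_lang.{u} {d : ℕ} (hd : 2 ≤ d) {B : ℝ} (hB : 1 ≤ B) {ε : ℝ} (hε : 0 < ε) (D : ℕ) :
    ∃ c : ℝ, 0 < c ∧ ∀ (L : Type u) [Field L] [NumberField L] (f : L[X])
      (S : Set L) (P : Thin d f S B), Module.finrank ℚ L ≤ D → (∀ x ∈ S, f.eval x ∈ S) →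
      ε * placeSum (fun w => Real.log (P.RI w)) (fun w => Real.log (P.RF w)) ≤ placeSum P.TI P.TF →
      ∀ a ∈ S, Wandering f a →
      c * max 1 (placeSum (fun w => Real.log (P.RI w)) (fun w => Real.log (P.RF w))) ≤ canHeight f a := by
  obtain ⟨c, hc, h⟩ := lang.{u} hd hB hε D
  refine ⟨c, hc, fun L _ _ f S P hD hS hE a ha hw => ?_⟩
  have hr := r_pos (L := L)
  have h1 := h L f S P hD hS (by
    rw [placeSum_eq, placeSum_eq, mul_div_assoc', div_le_div_iff_of_pos_right hr] at hE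
    exact hE) a ha hw
  rw [canHeight_eq P.toRad, placeSum_eq, le_div_iff₀ hr]
  refine le_trans (le_of_eq ?_) h1
  rw [mul_assoc, max_mul_of_nonneg _ _ hr.le, one_mul, div_mul_cancel₀ _ hr.ne']
  rfl

/-- The theorem for thin data. -/
theorem main_thm.{u} {d : ℕ} (hd : 2 ≤ d) {B : ℝ} (hB : 1 ≤ B) {ε : ℝ} (hε : 0 < ε) :
    ∃ N : ℕ, ∃ κ C : ℝ, 0 < κ ∧ ∀ D : ℕ, ∃ κ' : ℝ, 0 < κ' ∧
      ∀ (L : Type u) [Field L] [NumberField L] (f : L[X]) (S : Set L) (P : Thin d f S B) (h : ℝ),
      h = placeSum (fun w => Real.log (P.RI w)) (fun w => Real.log (P.RF w)) →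
      ε * h ≤ placeSum P.TI P.TF →
      (∀ Z : Finset L, (Z : Set L) ⊆ S → (∀ z ∈ Z, canHeight f z < κ * h - C) → Z.card < N) ∧
      (Module.finrank ℚ L ≤ D → (∀ x ∈ S, f.eval x ∈ S) → ∀ a ∈ S, Wandering f a →
        κ' * max 1 h ≤ canHeight f a) := by
  obtain ⟨N, κ, C, h1, h2, h3⟩ := main_count.{u} hd hB hε
  refine ⟨N + 1, κ, κ * C, h1, fun D => ?_⟩
  obtain ⟨κ', hκ', h4⟩ := main_lang.{u} hd hB hε D
  refine ⟨κ', hκ', fun L _ _ f S P h hh hE => ⟨fun Z hZ hz => ?_, fun hD hS a ha hw => ?_⟩⟩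
  · subst hh
    rcases Z.eq_empty_or_nonempty with rfl | ⟨z0, hz0⟩
    · simp
    · have h5 : 0 ≤ canHeight f z0 := by
        rw [canHeight_eq P.toRad]
        exact div_nonneg (P.hat_nonneg z0) r_pos.le
      have h6 := hz z0 hz0
      have h7 : C < placeSum (fun w => Real.log (P.RI w)) (fun w => Real.log (P.RF w)) := by
        have : κ * C < κ * placeSum (fun w => Real.log (P.RI w)) (fun w => Real.log (P.RF w)) := by
          linarith
        exact lt_of_mul_lt_mul_left this h1.le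
      have h8 : 0 ≤ κ * C := mul_nonneg h1.le h2
      exact (h3 L f S P h7 hE Z hZ fun z hzZ => by linarith [hz z hzZ]).trans (Nat.lt_succ_self N)
  · subst hh
    exact h4 L f S P hD hS hE a ha hw

theorem far_thm.{u} {d : ℕ} (hd : 2 ≤ d) {ε : ℝ} (hε : 0 < ε) :
    ∃ N : ℕ, ∃ κ C : ℝ, 0 < κ ∧ ∀ D : ℕ, ∃ κ' : ℝ, 0 < κ' ∧
      ∀ (L : Type u) [Field L] [NumberField L] (ρ : Fin d → L) (S : Set L),
      ε * rootHeight ρ ≤ farness S ρ →
      (∀ Z : Finset L, (Z : Set L) ⊆ S →
        (∀ z ∈ Z, canHeight (∏ j, (X - Polynomial.C (ρ j))) z < κ * rootHeight ρ - C) →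
        Z.card < N) ∧
      (Module.finrank ℚ L ≤ D → (∀ x ∈ S, (∏ j, (X - Polynomial.C (ρ j))).eval x ∈ S) →
        ∀ a ∈ S, Wandering (∏ j, (X - Polynomial.C (ρ j))) a →
        κ' * max 1 (rootHeight ρ) ≤ canHeight (∏ j, (X - Polynomial.C (ρ j))) a) := by
  obtain ⟨N, κ, C, h1, h2⟩ := main_thm.{u} hd (by norm_num : (1 : ℝ) ≤ 4) hε
  refine ⟨N, κ, C, h1, fun D => ?_⟩
  obtain ⟨κ', hκ', h3⟩ := h2 D
  exact ⟨κ', hκ', fun L _ _ ρ S hE => h3 L (poly ρ) S (thinA S ρ hd) _ rfl hE⟩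

theorem placeSum_mul (t : ℝ) (φ : InfinitePlace L → ℝ) (ψ : FinitePlace L → ℝ) :
    placeSum (fun w => t * φ w) (fun w => t * ψ w) = t * placeSum φ ψ := by
  rw [placeSum_eq, placeSum_eq, tot_mul, mul_div_assoc]

theorem uR_sum (d : ℕ) (c : L) : placeSum (fun w => Real.log (uR w.val d c))
    (fun w => Real.log (uR w.val d c)) = 1 / (d : ℝ) * height c := by
  simp only [log_uR]
  rw [placeSum_mul]
  unfold height
  rw [logHeight_eq_tot, placeSum_eq]
  rfl

theorem thinU_sum {d : ℕ} (hd : 3 ≤ d) (c : L) :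
    placeSum (thinU hd c).TI (thinU hd c).TF = 1 / (d : ℝ) * goodPart d c := by
  classical
  unfold goodPart
  rw [← placeSum_mul]
  congr 1
  · funext w
    show (if w.IsReal then Real.log (uR w.val d c) else 0) = _
    split_ifs
    · exact log_uR _ _ _
    · rw [mul_zero]
  · funext w
    show (if Good d c w then Real.log (uR w.val d c) else 0) = _
    split_ifs
    · exact log_uR _ _ _
    · rw [mul_zero]

theorem uni_thm.{u} {d : ℕ} (hd : 3 ≤ d) {ε : ℝ} (hε : 0 < ε) :
    ∃ N : ℕ, ∃ κ C : ℝ, 0 < κ ∧ ∀ D : ℕ, ∃ κ' : ℝ, 0 < κ' ∧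
      ∀ (L : Type u) [Field L] [NumberField L] (c : L), ε * height c ≤ goodPart d c →
      (∀ Z : Finset L, (∀ z ∈ Z, canHeight (X ^ d + Polynomial.C c) z < κ * height c - C) →
        Z.card < N) ∧
      (Module.finrank ℚ L ≤ D → ∀ a : L, Wandering (X ^ d + Polynomial.C c) a →
        κ' * max 1 (height c) ≤ canHeight (X ^ d + Polynomial.C c) a) := by
  have hd0 : (0 : ℝ) < d := by
    have : 0 < d := by omega
    exact_mod_cast this
  have hd1 : (1 : ℝ) ≤ d := by
    have : 1 ≤ d := by omega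
    exact_mod_cast this
  obtain ⟨N, κ, C, h1, h2⟩ := main_thm.{u} (by omega : 2 ≤ d)
    (one_le_pow₀ (by norm_num) : (1 : ℝ) ≤ 2 ^ (d + 5)) hε
  refine ⟨N, κ / d, C, by positivity, fun D => ?_⟩
  obtain ⟨κ', hκ', h3⟩ := h2 D
  refine ⟨κ' / d, by positivity, fun L _ _ c hE => ?_⟩
  have e : 1 / (d : ℝ) * height c = placeSum (fun w => Real.log ((thinU hd c).RI w))
      (fun w => Real.log ((thinU hd c).RF w)) := (uR_sum d c).symm
  obtain ⟨h4, h5⟩ := h3 L (upoly d c) Set.univ (thinU hd c) _ e (by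
    rw [thinU_sum]
    calc ε * (1 / (d : ℝ) * height c) = 1 / (d : ℝ) * (ε * height c) := by ring
      _ ≤ _ := mul_le_mul_of_nonneg_left hE (by positivity))
  refine ⟨fun Z hz => h4 Z (Set.subset_univ _) fun z hzZ => ?_, fun hD a hw => ?_⟩
  · refine (hz z hzZ).trans_eq ?_
    ring
  · refine le_trans ?_ (h5 hD (fun _ _ => Set.mem_univ _) a (Set.mem_univ _) hw)
    have h6 : 1 / (d : ℝ) * max 1 (height c) ≤ max 1 (1 / (d : ℝ) * height c) := by
      rw [mul_max_of_nonneg _ _ (by positivity)]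
      refine max_le_max ?_ le_rfl
      rw [mul_one, div_le_one hd0]
      exact hd1
    calc κ' / d * max 1 (height c) = κ' * (1 / (d : ℝ) * max 1 (height c)) := by ring
      _ ≤ _ := mul_le_mul_of_nonneg_left h6 hκ'.le

end Pool.Agent.Lib_helper5.DLH
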