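import Pool.Agent.Lib_helper5.DLH.Lang

/-!
# Polynomials whose roots are far from the set `S`
-/

set_option autoImplicit false
set_option linter.unusedSectionVars false

open Polynomial Finset NumberField Filter Topology

namespace Pool.Agent.Lib_helper5.DLH

variable {L : Type*} [Field L]

/-- `max (1, |ρ_1|, ..., |ρ_d|)` -/
noncomputable def rad {d : ℕ} (v : AbsoluteValue L ℝ) (ρ : Fin d → L) : ℝ := max 1 (⨆ j, v (ρ j))

/-- the distance of `x` to the set `S` -/
noncomputable def dst (v : AbsoluteValue L ℝ) (S : Set L) (x : L) : ℝ := ⨅ s : S, v (x - s)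

/-- `log⁺ (∏ max (1, dist (ρ_j, S)) / R)` -/
noncomputable def gain {d : ℕ} (v : AbsoluteValue L ℝ) (S : Set L) (ρ : Fin d → L) : ℝ :=
  max 0 (∑ j, Real.log (max 1 (dst v S (ρ j))) - Real.log (rad v ρ))

/-- the polynomial with the roots `ρ_j` -/
noncomputable def poly {d : ℕ} (ρ : Fin d → L) : L[X] := ∏ j, (X - C (ρ j))

section

variable {d : ℕ} (v : AbsoluteValue L ℝ) (S : Set L) (ρ : Fin d → L)

theorem poly_monic : (poly ρ).Monic := monic_prod_of_monic _ _ fun _ _ => monic_X_sub_C _

theorem poly_deg : (poly ρ).natDegree = d := by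
  unfold poly
  rw [natDegree_prod_of_monic _ _ fun j _ => monic_X_sub_C _]
  simp

theorem poly_eval (z : L) : (poly ρ).eval z = ∏ j, (z - ρ j) := by
  unfold poly
  rw [eval_prod]
  simp

theorem le_rad (j : Fin d) : v (ρ j) ≤ rad v ρ :=
  (le_ciSup (Set.finite_range fun j => v (ρ j)).bddAbove j).trans (le_max_right _ _)

theorem one_le_rad : 1 ≤ rad v ρ := le_max_left _ _

theorem rad_le {r : ℝ} (h1 : 1 ≤ r) (h : ∀ j, v (ρ j) ≤ r) : rad v ρ ≤ r := by
  refine max_le h1 ?_
  rcases isEmpty_or_nonempty (Fin d) with h2 | h2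
  · rw [Real.iSup_of_isEmpty]; linarith
  · exact ciSup_le h

theorem dst_nonneg (x : L) : 0 ≤ dst v S x := Real.iInf_nonneg fun _ => v.nonneg _

theorem dst_le {x s : L} (hs : s ∈ S) : dst v S x ≤ v (s - x) := by
  rw [v.map_sub]
  refine ciInf_le (f := fun s : S => v (x - s)) ⟨0, ?_⟩ ⟨s, hs⟩
  rintro _ ⟨t, rfl⟩
  exact v.nonneg _

theorem gain_nonneg : 0 ≤ gain v S ρ := le_max_left _ _

theorem logmax_nonneg (t : ℝ) : 0 ≤ Real.log (max 1 t) := Real.log_nonneg (le_max_left _ _)

/-- the gain is at most the sum of the distances to one point -/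
theorem gain_le {s : L} (hs : s ∈ S) : gain v S ρ ≤ ∑ j, Real.log (max 1 (v (s - ρ j))) := by
  unfold gain
  refine max_le (Finset.sum_nonneg fun j _ => logmax_nonneg _) ?_
  have h1 : 0 ≤ Real.log (rad v ρ) := Real.log_nonneg (one_le_rad v ρ)
  have h2 : ∑ j, Real.log (max 1 (dst v S (ρ j))) ≤ ∑ j, Real.log (max 1 (v (s - ρ j))) :=
    Finset.sum_le_sum fun j _ => Real.log_le_log (by positivity) (max_le_max le_rfl (dst_le v S hs))
  linarith

/-- the main point: some roots must be close to `S` -/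
theorem close_roots {z : L} (hz : z ∈ S) {B : ℝ}
    (hf : v ((poly ρ).eval z) ≤ B * rad v ρ) :
    v ((∏ j ∈ Finset.univ.filter fun j => dst v S (ρ j) ≤ 1, (X - C (ρ j))).eval z) *
      Real.exp (∑ j, Real.log (max 1 (dst v S (ρ j)))) ≤ B * rad v ρ := by
  classical
  refine le_trans ?_ hf
  rw [poly_eval, map_prod, eval_prod, map_prod, Real.exp_sum,
    ← Finset.prod_filter_mul_prod_filter_not Finset.univ (fun j => dst v S (ρ j) ≤ 1)
      (fun j => v (z - ρ j)),
    ← Finset.prod_filter_mul_prod_filter_not Finset.univ (fun j => dst v S (ρ j) ≤ 1)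
      (fun j => Real.exp (Real.log (max 1 (dst v S (ρ j)))))]
  have h1 : ∏ j ∈ Finset.univ.filter (fun j => dst v S (ρ j) ≤ 1),
      Real.exp (Real.log (max 1 (dst v S (ρ j)))) = 1 := by
    refine Finset.prod_eq_one fun j hj => ?_
    rw [max_eq_left (Finset.mem_filter.1 hj).2, Real.log_one, Real.exp_zero]
  rw [h1, one_mul]
  refine mul_le_mul (le_of_eq (Finset.prod_congr rfl fun j _ => by simp)) ?_
    (Finset.prod_nonneg fun j _ => (Real.exp_pos _).le) (Finset.prod_nonneg fun j _ => v.nonneg _)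
  refine Finset.prod_le_prod (fun j _ => (Real.exp_pos _).le) fun j hj => ?_
  have h2 : 1 < dst v S (ρ j) := not_le.1 (Finset.mem_filter.1 hj).2
  rw [max_eq_right h2.le, Real.exp_log (by linarith)]
  exact dst_le v S hz

theorem gain_G {B : ℝ} (hB : 1 ≤ B) (hg : Real.log B < gain v S ρ) {Z : Set L} (hZ : Z.Nonempty)
    (hZS : Z ⊆ S) (hf : ∀ z ∈ Z, v ((poly ρ).eval z) ≤ B * rad v ρ) :
    ∃ G : L[X], G.Monic ∧ 1 ≤ G.natDegree ∧ G.natDegree ≤ d ∧
      ∀ z ∈ Z, v (G.eval z) ≤ B * Real.exp (-(gain v S ρ)) := by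
  classical
  have hR : 0 < rad v ρ := zero_lt_one.trans_le (one_le_rad v ρ)
  have hgp : 0 < gain v S ρ := lt_of_le_of_lt (Real.log_nonneg hB) hg
  have hge : gain v S ρ = ∑ j, Real.log (max 1 (dst v S (ρ j))) - Real.log (rad v ρ) := by
    unfold gain at hgp ⊢
    rcases max_choice 0 (∑ j, Real.log (max 1 (dst v S (ρ j))) - Real.log (rad v ρ)) with h | h
    · rw [h] at hgp; exact absurd hgp (lt_irrefl _)
    · exact h
  have key : ∀ z ∈ Z, v ((∏ j ∈ Finset.univ.filter fun j => dst v S (ρ j) ≤ 1,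
      (X - C (ρ j))).eval z) ≤ B * Real.exp (-(gain v S ρ)) := by
    intro z hz
    have h1 := close_roots v S ρ (hZS hz) (hf z hz)
    have h2 : ∑ j, Real.log (max 1 (dst v S (ρ j))) = gain v S ρ + Real.log (rad v ρ) := by
      rw [hge]; ring
    rw [h2, Real.exp_add, Real.exp_log hR] at h1
    rw [Real.exp_neg, ← div_eq_mul_inv, le_div_iff₀ (Real.exp_pos _)]
    have h3 : v ((∏ j ∈ Finset.univ.filter fun j => dst v S (ρ j) ≤ 1,
      (X - C (ρ j))).eval z) * Real.exp (gain v S ρ) * rad v ρ ≤ B * rad v ρ := by linarith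
    exact le_of_mul_le_mul_right h3 hR
  have hdeg : (∏ j ∈ Finset.univ.filter fun j => dst v S (ρ j) ≤ 1, (X - C (ρ j))).natDegree =
      (Finset.univ.filter fun j => dst v S (ρ j) ≤ 1).card := by
    rw [natDegree_prod_of_monic _ _ fun j _ => monic_X_sub_C _]
    simp
  refine ⟨_, monic_prod_of_monic _ _ fun j _ => monic_X_sub_C (ρ j), ?_, ?_, key⟩
  · rw [hdeg]
    by_contra hcon
    have h0 : (Finset.univ.filter fun j => dst v S (ρ j) ≤ 1) = ∅ := by
      rw [← Finset.card_eq_zero]; omega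
    obtain ⟨z, hz⟩ := hZ
    have h1 := key z hz
    rw [h0, Finset.prod_empty, eval_one, map_one, Real.exp_neg, ← div_eq_mul_inv,
      le_div_iff₀ (Real.exp_pos _), one_mul] at h1
    have h2 := Real.exp_lt_exp.2 hg
    rw [Real.exp_log (by linarith)] at h2
    linarith
  · rw [hdeg]
    exact (Finset.card_le_univ _).trans (by simp)

end

section

variable [NumberField L] {d : ℕ} (S : Set L) (ρ : Fin d → L)

theorem fs_radlog : FS fun w : FinitePlace L => Real.log (rad w.val ρ) := by
  classical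
  have h : FS fun w : FinitePlace L => ∑ j ∈ (Finset.univ : Finset (Fin d)),
      Real.posLog (w (ρ j)) := FS.sum _ fun j _ => fs_posLog (ρ j)
  refine h.subset fun w hw => ?_
  simp only [Function.mem_support] at hw ⊢
  intro h1
  have h2 := (Finset.sum_eq_zero_iff_of_nonneg fun j _ => Real.posLog_nonneg).1 h1
  apply hw
  have h3 : rad w.val ρ ≤ 1 := by
    refine rad_le _ _ le_rfl fun j => ?_
    have h4 := h2 j (Finset.mem_univ j)
    rw [Real.posLog_eq_zero_iff] at h4
    exact (le_abs_self _).trans h4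
  rw [le_antisymm h3 (one_le_rad _ _), Real.log_one]

theorem fs_gain (hS : S.Nonempty) : FS fun w : FinitePlace L => gain w.val S ρ := by
  classical
  obtain ⟨s, hs⟩ := hS
  have h : FS fun w : FinitePlace L => ∑ j ∈ (Finset.univ : Finset (Fin d)),
      Real.posLog (w (s - ρ j)) := FS.sum _ fun j _ => fs_posLog (s - ρ j)
  refine h.subset fun w hw => ?_
  simp only [Function.mem_support] at hw ⊢
  intro h1
  apply hw
  refine le_antisymm ?_ (gain_nonneg _ _ _)
  have h2 := gain_le w.val S ρ hs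
  have h3 : ∑ j, Real.log (max 1 (w.val (s - ρ j))) = ∑ j, Real.posLog (w (s - ρ j)) :=
    Finset.sum_congr rfl fun j _ =>
      (Real.posLog_eq_log_max_one (w.val.nonneg (s - ρ j))).symm
  rw [h3, h1] at h2
  exact h2

theorem ult {w : FinitePlace L} {x y : L} {r : ℝ} (hx : w x ≤ r) (hy : w y ≤ r) :
    w (x - y) ≤ r := by
  have h := FinitePlace.add_le w x (-y)
  have h2 : w (-y) = w y := w.val.map_neg y
  rw [sub_eq_add_neg]
  refine h.trans (max_le hx ?_)
  rw [h2]; exact hy

theorem ult_eq {w : FinitePlace L} {x y : L} (h : w y < w x) : w (x - y) = w x := by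
  refine le_antisymm (ult le_rfl h.le) ?_
  by_contra hcon
  rw [not_le] at hcon
  have h1 : w x = w ((x - y) + y) := by rw [sub_add_cancel]
  have h2 := FinitePlace.add_le w (x - y) y
  rw [← h1] at h2
  exact absurd h2 (not_le.2 (max_lt hcon h))

/-- the thin structure -/
noncomputable def thinA (hd : 2 ≤ d) : Thin d (poly ρ) S 4 where
  RI w := rad w.val ρ
  RF w := rad w.val ρ
  hRI w := one_le_rad _ _
  hRF w := one_le_rad _ _
  fs := fs_radlog ρ
  d2 := hd
  monic := poly_monic ρ
  deg := poly_deg ρ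
  f1 w z hz := by
    have h1 : ∀ j, w (z - ρ j) = w z := fun j =>
      ult_eq (lt_of_le_of_lt (le_rad w.val ρ j) hz)
    rw [poly_eval, map_prod]
    simp [h1]
  f2 w z hz := by
    have h1 : ∀ j, w (z - ρ j) ≤ rad w.val ρ := fun j => ult hz (le_rad w.val ρ j)
    rw [poly_eval, map_prod]
    calc ∏ j, w (z - ρ j) ≤ ∏ j : Fin d, rad w.val ρ :=
          Finset.prod_le_prod (fun j _ => w.val.nonneg _) fun j _ => h1 j
      _ = _ := by simp
  i1 w z hz := by
    have h1 : ∀ j, 3 * w z ≤ 4 * w (z - ρ j) := fun j => by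
      have h2 : w (ρ j) ≤ rad w.val ρ := le_rad w.val ρ j
      have h3 : w z ≤ w (z - ρ j) + w (ρ j) := by
        have := w.val.add_le (z - ρ j) (ρ j)
        rwa [sub_add_cancel] at this
      linarith
    rw [poly_eval, map_prod]
    calc (3 * w z) ^ d = ∏ j : Fin d, (3 * w z) := by simp
      _ ≤ ∏ j : Fin d, (4 * w (z - ρ j)) :=
          Finset.prod_le_prod (fun j _ => mul_nonneg (by norm_num) (w.val.nonneg _)) fun j _ => h1 j
      _ = _ := by rw [Finset.prod_mul_distrib]; simp
  i2 w z := by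
    have h1 : ∀ j, w (z - ρ j) ≤ w z + rad w.val ρ := fun j => by
      have h2 : w (ρ j) ≤ rad w.val ρ := le_rad w.val ρ j
      have h3 : w (z - ρ j) ≤ w z + w (ρ j) := by
        have := w.val.add_le z (-ρ j)
        rwa [← sub_eq_add_neg, w.val.map_neg] at this
      linarith
    rw [poly_eval, map_prod]
    calc ∏ j, w (z - ρ j) ≤ ∏ j : Fin d, (w z + rad w.val ρ) :=
          Finset.prod_le_prod (fun j _ => w.val.nonneg _) fun j _ => h1 j
      _ = _ := by simp
  TI w := gain w.val S ρ
  TF w := gain w.val S ρ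
  hB := by norm_num
  hTI w := gain_nonneg _ _ _
  hTF w := gain_nonneg _ _ _
  t1 w z hz := by
    have hR : 0 < rad w.val ρ := zero_lt_one.trans_le (one_le_rad _ _)
    refine (gain_le w.val S ρ hz).trans ?_
    have h1 : ∀ j, Real.log (max 1 (w.val (z - ρ j))) ≤
        Real.log (rad w.val ρ) + exc w.val (rad w.val ρ) z := fun j => by
      unfold exc
      rw [← Real.log_mul hR.ne' (by positivity)]
      refine Real.log_le_log (by positivity) ?_
      have h2 := le_mul_exc w.val hR z
      have h3 : rad w.val ρ ≤ rad w.val ρ * max 1 (w.val z / rad w.val ρ) :=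
        le_mul_of_one_le_right hR.le (le_max_left _ _)
      refine max_le ((one_le_rad _ _).trans h3) ?_
      exact ult (w := w) h2 ((le_rad w.val ρ j).trans h3)
    calc ∑ j, Real.log (max 1 (w.val (z - ρ j))) ≤ ∑ j : Fin d,
          (Real.log (rad w.val ρ) + exc w.val (rad w.val ρ) z) := Finset.sum_le_sum fun j _ => h1 j
      _ = _ := by rw [Finset.sum_const, Finset.card_univ, Fintype.card_fin, nsmul_eq_mul]
  t2 w z hz := by
    have hR : 0 < rad w.val ρ := zero_lt_one.trans_le (one_le_rad _ _)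
    refine (gain_le w.val S ρ hz).trans ?_
    have h1 : ∀ j, Real.log (max 1 (w.val (z - ρ j))) ≤
        Real.log (rad w.val ρ) + exc w.val (4 * rad w.val ρ) z + Real.log 8 := fun j => by
      unfold exc
      rw [← Real.log_mul hR.ne' (by positivity), ← Real.log_mul (by positivity) (by norm_num)]
      refine Real.log_le_log (by positivity) ?_
      have h2 := le_mul_exc w.val (by positivity : 0 < 4 * rad w.val ρ) z
      have h3 : rad w.val ρ ≤ rad w.val ρ * max 1 (w.val z / (4 * rad w.val ρ)) :=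
        le_mul_of_one_le_right hR.le (le_max_left _ _)
      have h4 : w.val (z - ρ j) ≤ w.val z + rad w.val ρ := by
        have h5 := w.val.add_le z (-ρ j)
        rw [← sub_eq_add_neg, w.val.map_neg] at h5
        linarith [le_rad w.val ρ j]
      have h6 := one_le_rad w.val ρ
      refine max_le (by linarith) (by linarith)
    calc ∑ j, Real.log (max 1 (w.val (z - ρ j))) ≤ ∑ j : Fin d,
          (Real.log (rad w.val ρ) + exc w.val (4 * rad w.val ρ) z + Real.log 8) :=
            Finset.sum_le_sum fun j _ => h1 j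
      _ = _ := by rw [Finset.sum_const, Finset.card_univ, Fintype.card_fin, nsmul_eq_mul]
  g1 w hT Z hZ hZS h := by
    obtain ⟨G, h1, h2, h3, h4⟩ := gain_G w.val S ρ le_rfl (by rw [Real.log_one]; exact hT)
      (Z := (Z : Set L)) (by exact_mod_cast hZ) hZS
      (fun z hz => by rw [one_mul]; exact (h z hz).2)
    exact ⟨G, h1, h2, h3, fun z hz => (h4 z hz).trans_eq (one_mul _)⟩
  g2 w hT Z hZ hZS h := by
    obtain ⟨G, h1, h2, h3, h4⟩ := gain_G w.val S ρ (B := 4) (by norm_num) hT
      (Z := (Z : Set L)) (by exact_mod_cast hZ) hZS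
      (fun z hz => (h z hz).2)
    exact ⟨G, h1, h2, h3, fun z hz => h4 z hz⟩

end

end Pool.Agent.Lib_helper5.DLH
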