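import Pool.Agent.Lib_helper5.DLH.Sys

/-!
# The canonical height
-/

set_option autoImplicit false
set_option linter.unusedSectionVars false

open Polynomial Finset NumberField Filter Topology

namespace Pool.Agent.Lib_helper5.DLH

variable {L : Type*} [Field L] [NumberField L]

/-- the terms of the sequence defining the canonical height (relative to `L`) -/
noncomputable def useq (f : L[X]) (d : ℕ) (z : L) (n : ℕ) : ℝ :=
  Height.logHeight₁ ((fun x => f.eval x)^[n] z) / (d : ℝ) ^ n

/-- the canonical height relative to `L` -/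
noncomputable def hat (f : L[X]) (d : ℕ) (z : L) : ℝ := limUnder atTop (useq f d z)

namespace Rad

variable {d : ℕ} {f : L[X]} (P : Rad d f)

include P in
theorem d_pos : (0 : ℝ) < d := by
  have : (2 : ℝ) ≤ d := by exact_mod_cast P.d2
  linarith

theorem useq_step (z : L) (n : ℕ) :
    dist (useq f d z n) (useq f d z (n + 1)) ≤ (P.cst / d) * (1 / (d : ℝ)) ^ n := by
  have hd := P.d_pos
  unfold useq
  rw [Function.iterate_succ_apply']
  set y := (fun x => f.eval x)^[n] z with hy
  have h1 := P.height_up y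
  have h2 := P.height_lo y
  rw [Real.dist_eq]
  have h3 : Height.logHeight₁ y / (d : ℝ) ^ n - Height.logHeight₁ (f.eval y) / (d : ℝ) ^ (n + 1) =
      (d * Height.logHeight₁ y - Height.logHeight₁ (f.eval y)) / (d : ℝ) ^ (n + 1) := by
    rw [pow_succ]
    field_simp
  change |Height.logHeight₁ y / (d : ℝ) ^ n - Height.logHeight₁ (f.eval y) / (d : ℝ) ^ (n + 1)| ≤ _
  rw [h3, abs_div, abs_of_pos (pow_pos hd _ : (0 : ℝ) < d ^ (n + 1))]
  have h4 : (P.cst / d) * (1 / (d : ℝ)) ^ n = P.cst / (d : ℝ) ^ (n + 1) := by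
    rw [div_pow, one_pow, pow_succ]
    field_simp
  rw [h4]
  refine div_le_div_of_nonneg_right ?_ (by positivity)
  rw [abs_le]
  constructor <;> linarith

include P in
theorem r_lt_one : 1 / (d : ℝ) < 1 := by
  have : (2 : ℝ) ≤ d := by exact_mod_cast P.d2
  rw [div_lt_one P.d_pos]
  linarith

include P in
theorem tendsto_hat (z : L) : Tendsto (useq f d z) atTop (𝓝 (hat f d z)) := by
  have h := cauchySeq_of_le_geometric _ _ P.r_lt_one (P.useq_step z)
  obtain ⟨a, ha⟩ := cauchySeq_tendsto_of_complete h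
  exact tendsto_nhds_limUnder ⟨a, ha⟩

theorem xx_le_hat (z : L) : P.xx z ≤ hat f d z := by
  refine ge_of_tendsto' (P.tendsto_hat z) fun n => ?_
  unfold useq
  rw [le_div_iff₀ (pow_pos P.d_pos n)]
  calc P.xx z * (d : ℝ) ^ n = (d : ℝ) ^ n * P.xx z := mul_comm _ _
    _ ≤ P.xx ((fun x => f.eval x)^[n] z) := P.xx_iter z n
    _ ≤ _ := P.xx_le _

include P in
theorem hat_eval (z : L) : hat f d (f.eval z) = d * hat f d z := by
  refine tendsto_nhds_unique (P.tendsto_hat (f.eval z)) ?_
  have h1 : Tendsto (fun n => useq f d z (n + 1)) atTop (𝓝 (hat f d z)) :=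
    (tendsto_add_atTop_iff_nat 1).2 (P.tendsto_hat z)
  have h2 := h1.const_mul (d : ℝ)
  refine h2.congr fun n => ?_
  unfold useq
  rw [Function.iterate_succ_apply, pow_succ]
  have := P.d_pos
  field_simp

include P in
theorem hat_iter (z : L) (k : ℕ) : hat f d ((fun x => f.eval x)^[k] z) = (d : ℝ) ^ k * hat f d z := by
  induction k with
  | zero => simp
  | succ k ih =>
    rw [Function.iterate_succ_apply', P.hat_eval, ih, pow_succ]
    ring

theorem height_le_hat (z : L) : Height.logHeight₁ z ≤ hat f d z + P.cst := by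
  have h := dist_le_of_le_geometric_of_tendsto₀ _ _ P.r_lt_one (P.useq_step z) (P.tendsto_hat z)
  have h0 : useq f d z 0 = Height.logHeight₁ z := by simp [useq]
  rw [h0, Real.dist_eq] at h
  have hd : (2 : ℝ) ≤ d := by exact_mod_cast P.d2
  have h1 : P.cst / d / (1 - 1 / (d : ℝ)) ≤ P.cst := by
    have h2 : P.cst / d / (1 - 1 / (d : ℝ)) = P.cst / (d - 1) := by
      have : (d : ℝ) ≠ 0 := P.d_pos.ne'
      have h3 : (d : ℝ) - 1 ≠ 0 := by linarith
      field_simp
    rw [h2]
    exact div_le_self P.cst_nonneg (by linarith)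
  have := (abs_le.1 (h.trans h1)).2
  linarith

include P in
theorem hat_nonneg (z : L) : 0 ≤ hat f d z := (P.xx_nonneg z).trans (P.xx_le_hat z)

end Rad

end Pool.Agent.Lib_helper5.DLH
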