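import Pool.Agent.Lib_helper5.DLH.Count
import Pool.Agent.Lib_helper5.DLH.North

/-!
# The lower bound for the canonical height of a wandering point
-/

set_option autoImplicit false
set_option linter.unusedSectionVars false

open Polynomial Finset NumberField Filter Topology

namespace Pool.Agent.Lib_helper5.DLH

/-- an infinite orbit has no repetition -/
theorem injective_of_infinite {α : Type*} (g : α → α) (a : α)
    (h : (Set.range fun n : ℕ => g^[n] a).Infinite) : Function.Injective fun n : ℕ => g^[n] a := by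
  intro m n hmn
  by_contra hne
  wlog hlt : m < n with H
  · exact H g a h hmn.symm (Ne.symm hne) (lt_of_le_of_ne (not_lt.1 hlt) (Ne.symm hne))
  apply h
  have key : ∀ k : ℕ, ∃ j < n, g^[k] a = g^[j] a := by
    intro k
    induction k with
    | zero => exact ⟨0, by omega, rfl⟩
    | succ k ih =>
      obtain ⟨j, hj, hjk⟩ := ih
      rcases Nat.lt_or_ge (j + 1) n with h1 | h1
      · exact ⟨j + 1, h1, by rw [Function.iterate_succ_apply', hjk, Function.iterate_succ_apply']⟩
      · have h2 : j + 1 = n := by omega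
        refine ⟨m, hlt, ?_⟩
        rw [Function.iterate_succ_apply', hjk, ← Function.iterate_succ_apply' g]
        change g^[j + 1] a = g^[m] a
        rw [h2]
        exact hmn.symm
  refine (Set.finite_Iio n).image (fun j => g^[j] a) |>.subset ?_
  rintro _ ⟨k, rfl⟩
  obtain ⟨j, hj, hjk⟩ := key k
  exact ⟨j, hj, hjk.symm⟩

theorem iter_mem {α : Type*} {g : α → α} {S : Set α} (hS : ∀ x ∈ S, g x ∈ S) {a : α} (ha : a ∈ S)
    (n : ℕ) : g^[n] a ∈ S := by
  induction n with
  | zero => exact ha
  | succ n ih => rw [Function.iterate_succ_apply']; exact hS _ ih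

theorem lang.{u} {d : ℕ} (hd : 2 ≤ d) {B : ℝ} (hB : 1 ≤ B) {ε : ℝ} (hε : 0 < ε) (D : ℕ) :
    ∃ c : ℝ, 0 < c ∧ ∀ (L : Type u) [Field L] [NumberField L] (f : L[X])
      (S : Set L) (P : Thin d f S B), Module.finrank ℚ L ≤ D → (∀ x ∈ S, f.eval x ∈ S) →
      ε * P.hR ≤ tot P.TI P.TF → ∀ a ∈ S, (Set.range fun n : ℕ => (fun x => f.eval x)^[n] a).Infinite →
      c * max (Module.finrank ℚ L : ℝ) P.hR ≤ hat f d a := by
  classical
  obtain ⟨N, κ, C, hκ, hC, hcount⟩ := count.{u} hd hB hε
  set C' : ℝ := max 1 C with hC'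
  set T : ℝ := 1 + (d * (C' * D) + D * (d * Real.log 4)) with hT
  obtain ⟨M, hM⟩ := northcott_card.{u} D T
  have hd1 : (1 : ℝ) < d := by exact_mod_cast hd
  have hd0 : (0 : ℝ) < d := by linarith
  set c1 : ℝ := κ / (d : ℝ) ^ N with hc1
  set c2 : ℝ := 1 / ((d : ℝ) ^ M * (C' * D + 1)) with hc2
  have hc1p : 0 < c1 := by positivity
  have hc2p : 0 < c2 := by positivity
  refine ⟨min c1 c2, lt_min hc1p hc2p, ?_⟩
  intro L _ _ f S P hD hS hE a ha horb
  have hinj := injective_of_infinite _ _ horb
  have hR0 := P.hR_nonneg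
  have hr : (1 : ℝ) ≤ Module.finrank ℚ L := by
    exact_mod_cast (Module.finrank_pos (R := ℚ) (M := L))
  have hrD : (Module.finrank ℚ L : ℝ) ≤ D := by exact_mod_cast hD
  have hmax0 : 0 ≤ max (Module.finrank ℚ L : ℝ) P.hR := hR0.trans (le_max_right _ _)
  have hhat := P.hat_nonneg a
  rcases lt_or_ge (C' * Module.finrank ℚ L) P.hR with hlarge | hsmall
  · -- large height
    have h1 : C * Module.finrank ℚ L < P.hR :=
      lt_of_le_of_lt (mul_le_mul_of_nonneg_right (le_max_right _ _) (by linarith)) hlarge
    have h2 : (Module.finrank ℚ L : ℝ) ≤ P.hR := by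
      have h3 : 1 * (Module.finrank ℚ L : ℝ) ≤ C' * Module.finrank ℚ L :=
        mul_le_mul_of_nonneg_right (le_max_left _ _) (by linarith)
      linarith
    rw [max_eq_right h2]
    by_contra hcon
    rw [not_le] at hcon
    have h3 : hat f d a < c1 * P.hR :=
      lt_of_lt_of_le hcon (mul_le_mul_of_nonneg_right (min_le_left _ _) hR0)
    have h4 := hcount L f S P h1 hE
      ((Finset.range N).image fun n => (fun x => f.eval x)^[n] a)
      (by intro x hx
          simp only [Finset.coe_image, Set.mem_image] at hx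
          obtain ⟨n, -, rfl⟩ := hx
          exact iter_mem hS ha n)
      (by intro x hx
          rw [Finset.mem_image] at hx
          obtain ⟨n, hn, rfl⟩ := hx
          rw [P.hat_iter]
          have h5 : (d : ℝ) ^ n ≤ (d : ℝ) ^ N :=
            pow_le_pow_right₀ hd1.le (Finset.mem_range.1 hn).le
          calc (d : ℝ) ^ n * hat f d a ≤ (d : ℝ) ^ N * (c1 * P.hR) :=
                mul_le_mul h5 h3.le hhat (by positivity)
            _ = κ * P.hR := by rw [hc1]; field_simp)
    rw [Finset.card_image_of_injective _ hinj, Finset.card_range] at h4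
    exact lt_irrefl _ h4
  · -- bounded height
    have hcst : P.cst ≤ T - 1 := by
      unfold Rad.cst
      have h1 : P.hR ≤ C' * D := hsmall.trans (mul_le_mul_of_nonneg_left hrD (by positivity))
      have h2 : (d : ℝ) * P.hR ≤ d * (C' * D) := mul_le_mul_of_nonneg_left h1 hd0.le
      have h4 : 0 ≤ Real.log 4 := Real.log_nonneg (by norm_num)
      have h3 : (Module.finrank ℚ L : ℝ) * (d * Real.log 4) ≤ D * (d * Real.log 4) :=
        mul_le_mul_of_nonneg_right hrD (by positivity)
      rw [hT]; linarith
    have hmaxle : max (Module.finrank ℚ L : ℝ) P.hR ≤ C' * D + 1 := by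
      refine max_le ?_ ?_
      · have h3 : 1 * (D : ℝ) ≤ C' * D := mul_le_mul_of_nonneg_right (le_max_left _ _) (by positivity)
        linarith
      · have h1 : P.hR ≤ C' * D := hsmall.trans (mul_le_mul_of_nonneg_left hrD (by positivity))
        linarith
    by_contra hcon
    rw [not_le] at hcon
    have h3 : hat f d a < 1 / (d : ℝ) ^ M := by
      refine lt_of_lt_of_le hcon ?_
      calc min c1 c2 * max (Module.finrank ℚ L : ℝ) P.hR ≤ c2 * (C' * D + 1) :=
            mul_le_mul (min_le_right _ _) hmaxle hmax0 hc2p.le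
        _ = 1 / (d : ℝ) ^ M := by
          rw [hc2]
          have : C' * (D : ℝ) + 1 ≠ 0 := by positivity
          field_simp
    have h4 := hM L hD ((Finset.range (M + 1)).image fun n => (fun x => f.eval x)^[n] a)
      (by intro x hx
          rw [Finset.mem_image] at hx
          obtain ⟨n, hn, rfl⟩ := hx
          have h5 := P.height_le_hat ((fun x => f.eval x)^[n] a)
          rw [P.hat_iter] at h5
          have h6 : (d : ℝ) ^ n ≤ (d : ℝ) ^ M :=
            pow_le_pow_right₀ hd1.le (Nat.lt_succ_iff.1 (Finset.mem_range.1 hn))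
          have h7 : (d : ℝ) ^ n * hat f d a ≤ 1 := by
            calc (d : ℝ) ^ n * hat f d a ≤ (d : ℝ) ^ M * (1 / (d : ℝ) ^ M) :=
                  mul_le_mul h6 h3.le hhat (by positivity)
              _ = 1 := by field_simp
          linarith)
    rw [Finset.card_image_of_injective _ hinj, Finset.card_range] at h4
    omega

end Pool.Agent.Lib_helper5.DLH
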