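import Pool.Agent.Lib_helper5.DLH.GenA

/-!
# Roots of unity in residue fields, clusters
-/

set_option autoImplicit false
set_option linter.unusedSectionVars false

open Polynomial Finset NumberField Filter Topology

namespace Pool.Agent.Lib_helper5.DLH

variable {L : Type*} [Field L] [NumberField L]

/-- few classes: one linear factor for each class -/
theorem clusters {ι : Type*} [DecidableEq ι] (v : AbsoluteValue L ℝ) {Z : Finset L}
    (hZ : Z.Nonempty) (cl : L → ι) {m : ℕ} (hm : (Z.image cl).card ≤ m) {a b : ℝ} (ha : 0 ≤ a)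
    (hb : 1 ≤ b) (h1 : ∀ z ∈ Z, ∀ t ∈ Z, cl z = cl t → v (z - t) ≤ a)
    (h2 : ∀ z ∈ Z, ∀ t ∈ Z, v (z - t) ≤ b) :
    ∃ G : L[X], G.Monic ∧ 1 ≤ G.natDegree ∧ G.natDegree ≤ m ∧
      ∀ z ∈ Z, v (G.eval z) ≤ a * b ^ (m - 1) := by
  classical
  have hrep : ∀ i ∈ Z.image cl, ∃ t ∈ Z, cl t = i := fun i hi => Finset.mem_image.1 hi
  choose! rep hr1 hr2 using hrep
  have hdeg : (∏ i ∈ Z.image cl, (X - C (rep i))).natDegree = (Z.image cl).card := by
    rw [natDegree_prod_of_monic _ _ fun j _ => monic_X_sub_C _]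
    simp
  refine ⟨∏ i ∈ Z.image cl, (X - C (rep i)), monic_prod_of_monic _ _ fun j _ => monic_X_sub_C _,
    ?_, ?_, fun z hz => ?_⟩
  · rw [hdeg]; exact Finset.card_pos.2 (hZ.image cl)
  · rw [hdeg]; exact hm
  · have hi : cl z ∈ Z.image cl := Finset.mem_image_of_mem cl hz
    rw [eval_prod, map_prod, ← Finset.mul_prod_erase _ _ hi]
    refine mul_le_mul ?_ ?_ (Finset.prod_nonneg fun j _ => v.nonneg _) ha
    · simpa using h1 z hz _ (hr1 _ hi) (hr2 _ hi).symm
    · calc ∏ i ∈ (Z.image cl).erase (cl z), v ((X - C (rep i)).eval z)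
          ≤ ∏ i ∈ (Z.image cl).erase (cl z), b :=
            Finset.prod_le_prod (fun j _ => v.nonneg _) fun i hi' => by
              simpa using h2 z hz _ (hr1 _ (Finset.mem_of_mem_erase hi'))
        _ = b ^ ((Z.image cl).card - 1) := by
            rw [Finset.prod_const, Finset.card_erase_of_mem hi]
        _ ≤ b ^ (m - 1) := pow_le_pow_right₀ hb (by omega)

theorem int_le_one (w : FinitePlace L) (x : 𝓞 L) : w (x : L) ≤ 1 := by
  have h := FinitePlace.norm_le_one (K := L) w.maximalIdeal x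
  rwa [FinitePlace.norm_embedding_eq] at h

theorem int_eq_one (w : FinitePlace L) {x : 𝓞 L} (h : x ∉ w.maximalIdeal.asIdeal) :
    w (x : L) = 1 := by
  have h1 := (FinitePlace.norm_eq_one_iff_notMem (K := L) w.maximalIdeal x).2 h
  rwa [FinitePlace.norm_embedding_eq] at h1

theorem int_lt_one (w : FinitePlace L) (x : 𝓞 L) :
    w (x : L) < 1 ↔ x ∈ w.maximalIdeal.asIdeal := by
  have h1 := FinitePlace.norm_lt_one_iff_mem (K := L) w.maximalIdeal x
  rwa [FinitePlace.norm_embedding_eq] at h1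

theorem sum_le' {ι : Type*} (w : FinitePlace L) (s : Finset ι) (f : ι → L) {r : ℝ} (hr : 0 ≤ r)
    (h : ∀ i ∈ s, w (f i) ≤ r) : w (∑ i ∈ s, f i) ≤ r := by
  classical
  induction s using Finset.induction_on with
  | empty => simpa using hr
  | insert a s ha ih =>
    rw [Finset.sum_insert ha]
    exact (FinitePlace.add_le w _ _).trans (max_le (h a (Finset.mem_insert_self _ _))
      (ih fun i hi => h i (Finset.mem_insert_of_mem hi)))

theorem mul_lt_one {w : FinitePlace L} {x y : L} (hx : w x < 1) (hy : w y ≤ 1) :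
    w (x * y) < 1 := by
  rw [map_mul]
  calc w x * w y ≤ w x * 1 := mul_le_mul_of_nonneg_left hy (w.val.nonneg _)
    _ < 1 := by rw [mul_one]; exact hx

theorem add_lt_one' {w : FinitePlace L} {x y : L} (hx : w x < 1) (hy : w y < 1) :
    w (x + y) < 1 := (FinitePlace.add_le w x y).trans_lt (max_lt hx hy)

theorem sub_comm' (w : FinitePlace L) (x y : L) : w (x - y) = w (y - x) := w.val.map_sub x y

/-- a unit at `w` is congruent to an integer -/
theorem exists_int (w : FinitePlace L) {u : L} (hu : w u = 1) : ∃ a : 𝓞 L, w (u - a) < 1 := by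
  obtain ⟨n, m, h⟩ := w.maximalIdeal.exists_primeCompl_mul_eq_or_mul_eq u
  -- inverses modulo the ideal
  have hinv : ∀ b : 𝓞 L, b ∉ w.maximalIdeal.asIdeal → ∃ b' : 𝓞 L, w ((b : L) * b' - 1) < 1 := by
    intro b hb
    have hmax : w.maximalIdeal.asIdeal.IsMaximal := w.maximalIdeal.isMaximal
    obtain ⟨y, i, hi, hyi⟩ := hmax.exists_inv hb
    refine ⟨y, ?_⟩
    have h1 : (b : L) * y - 1 = -(i : L) := by
      have h2 : (y : L) * b + i = 1 := by
        have := congrArg (algebraMap (𝓞 L) L) hyi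
        simpa using this
      linear_combination h2
    rw [h1]
    have h3 : w (-(i : L)) = w (i : L) := w.val.map_neg _
    rw [h3]
    exact (int_lt_one w i).2 hi
  have hm : w ((m : 𝓞 L) : L) = 1 := int_eq_one w m.2
  rcases h with h | h
  · obtain ⟨b', hb'⟩ := hinv m m.2
    refine ⟨n * b', ?_⟩
    have e : u - ((n * b' : 𝓞 L) : L) = (((m : 𝓞 L) : L) * b' - 1) * (-u) := by
      have : ((n * b' : 𝓞 L) : L) = (n : L) * b' := by simp
      rw [this]
      have h' : u * ((m : 𝓞 L) : L) = (n : L) := h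
      rw [← h']; ring
    rw [e]
    refine mul_lt_one hb' ?_
    have : w (-u) = w u := w.val.map_neg _
    rw [this, hu]
  · have hn : w (n : L) = 1 := by
      have h' : u * (n : L) = ((m : 𝓞 L) : L) := h
      have h2 := congrArg w h'
      rw [map_mul, hu, one_mul, hm] at h2
      exact h2
    have hn' : n ∉ w.maximalIdeal.asIdeal := fun hc => by
      have := (int_lt_one w n).2 hc
      rw [hn] at this
      exact lt_irrefl _ this
    obtain ⟨b', hb'⟩ := hinv n hn'
    refine ⟨m * b', ?_⟩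
    have e : u - (((m : 𝓞 L) * b' : 𝓞 L) : L) = ((n : L) * b' - 1) * (-u) := by
      have : (((m : 𝓞 L) * b' : 𝓞 L) : L) = ((m : 𝓞 L) : L) * b' := by simp
      rw [this]
      have h' : u * (n : L) = ((m : 𝓞 L) : L) := h
      rw [← h']; ring
    rw [e]
    refine mul_lt_one hb' ?_
    have : w (-u) = w u := w.val.map_neg _
    rw [this, hu]

/-- the number of roots of unity in a finite field -/
theorem card_field (k : Type*) [Field k] [Finite k] {d : ℕ} (hd : 3 ≤ d)
    (hq : ¬ d ∣ Nat.card k - 1) :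
    ∃ H : Finset k, (∀ x, x ^ d = 1 → x ∈ H) ∧ H.card ≤ d - 2 := by
  classical
  have := Fintype.ofFinite k
  have hK : Nat.card (powMonoidHom d : kˣ →* kˣ).ker = (Nat.card k - 1).gcd d := by
    rw [IsCyclic.card_powMonoidHom_ker, Nat.card_units]
  generalize hKdef : (powMonoidHom d : kˣ →* kˣ).ker = K at hK
  refine ⟨(Finset.univ : Finset K).image fun x : K => (x.1 : k), fun x hx => ?_, ?_⟩
  · obtain ⟨u, rfl⟩ := IsUnit.of_pow_eq_one hx (by omega)
    have hu : u ∈ K := by
      rw [← hKdef, MonoidHom.mem_ker, powMonoidHom_apply]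
      ext
      push_cast
      exact hx
    exact Finset.mem_image.2 ⟨⟨u, hu⟩, Finset.mem_univ _, rfl⟩
  · refine Finset.card_image_le.trans ?_
    rw [Finset.card_univ, ← Nat.card_eq_fintype_card, hK]
    set g := (Nat.card k - 1).gcd d with hg
    have h1 : g ∣ d := Nat.gcd_dvd_right _ _
    have h2 : g ≠ d := fun h => hq (by rw [← h]; exact Nat.gcd_dvd_left _ _)
    obtain ⟨e, he⟩ := h1
    have he2 : 2 ≤ e := by
      rcases Nat.lt_or_ge e 2 with h3 | h3
      · interval_cases e
        · omega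
        · exact absurd (by omega) h2
      · exact h3
    have h3 : g * 2 ≤ d := by
      calc g * 2 ≤ g * e := Nat.mul_le_mul_left _ he2
        _ = d := he.symm
    omega

/-- the number of roots of unity in the residue field -/
theorem card_roots_le (w : FinitePlace L) {d : ℕ} (hd : 3 ≤ d)
    (hq : ¬ d ∣ Ideal.absNorm w.maximalIdeal.asIdeal - 1) :
    ∃ H : Finset (𝓞 L ⧸ w.maximalIdeal.asIdeal), (∀ x, x ^ d = 1 → x ∈ H) ∧ H.card ≤ d - 2 := by
  have hmax : w.maximalIdeal.asIdeal.IsMaximal := w.maximalIdeal.isMaximal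
  have hfin : Finite (𝓞 L ⧸ w.maximalIdeal.asIdeal) :=
    Ideal.finiteQuotientOfFreeOfNeBot _ w.maximalIdeal.ne_bot
  letI := Ideal.Quotient.field w.maximalIdeal.asIdeal
  exact card_field (𝓞 L ⧸ w.maximalIdeal.asIdeal) hd hq

/-- classes of the units with `u ^ d` close to `1` -/
theorem exists_cl (w : FinitePlace L) {d : ℕ} (hd : 3 ≤ d)
    (hq : ¬ d ∣ Ideal.absNorm w.maximalIdeal.asIdeal - 1) :
    ∃ (r : L → 𝓞 L ⧸ w.maximalIdeal.asIdeal) (H : Finset (𝓞 L ⧸ w.maximalIdeal.asIdeal)),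
      H.card ≤ d - 2 ∧ (∀ u, w u = 1 → w (u ^ d - 1) < 1 → r u ∈ H) ∧
      ∀ u u', w u = 1 → w u' = 1 → r u = r u' → w (u - u') < 1 := by
  classical
  obtain ⟨H, hH1, hH2⟩ := card_roots_le w hd hq
  have hex : ∀ u : L, ∃ a : 𝓞 L, w u = 1 → w (u - a) < 1 := fun u => by
    by_cases hu : w u = 1
    · obtain ⟨a, ha⟩ := exists_int w hu
      exact ⟨a, fun _ => ha⟩
    · exact ⟨0, fun h => absurd h hu⟩
  choose a ha using hex
  refine ⟨fun u => Ideal.Quotient.mk _ (a u), H, hH2, fun u hu hud => hH1 _ ?_,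
    fun u u' hu hu' h => ?_⟩
  · have h1 : w (((a u ^ d - 1 : 𝓞 L) : L)) < 1 := by
      have e : ((a u ^ d - 1 : 𝓞 L) : L) =
          (u - a u) * (-(∑ i ∈ Finset.range d, u ^ i * (a u : L) ^ (d - 1 - i))) +
            (u ^ d - 1) := by
        have h2 := (Commute.all u (a u : L)).mul_geom_sum₂ d
        push_cast
        linear_combination h2
      rw [e]
      refine add_lt_one' (mul_lt_one (ha u hu) ?_) hud
      have h3 : w (-(∑ i ∈ Finset.range d, u ^ i * (a u : L) ^ (d - 1 - i))) =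
          w (∑ i ∈ Finset.range d, u ^ i * (a u : L) ^ (d - 1 - i)) := w.val.map_neg _
      rw [h3]
      refine sum_le' w _ _ zero_le_one fun i _ => ?_
      rw [map_mul, map_pow, map_pow, hu, one_pow, one_mul]
      exact pow_le_one₀ (w.val.nonneg _) (int_le_one w _)
    have h4 := (int_lt_one w _).1 h1
    have h5 := Ideal.Quotient.eq_zero_iff_mem.2 h4
    rw [map_sub, map_pow, map_one] at h5
    exact sub_eq_zero.1 h5
  · have h1 : a u - a u' ∈ w.maximalIdeal.asIdeal := Ideal.Quotient.eq.1 h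
    have h2 := (int_lt_one w _).2 h1
    have e : u - u' = (u - a u) + (((a u - a u' : 𝓞 L) : L) + (a u' - u')) := by
      push_cast; ring
    rw [e]
    refine add_lt_one' (ha u hu) (add_lt_one' h2 ?_)
    rw [sub_comm']
    exact ha u' hu'

end Pool.Agent.Lib_helper5.DLH
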