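import Pool.Agent.Lib_helper5.DLH.Tot

/-!
# The local data of a polynomial and the canonical height
-/

set_option autoImplicit false
set_option linter.unusedSectionVars false

open Polynomial Finset NumberField Filter

namespace Pool.Agent.Lib_helper5.DLH

variable {L : Type*} [Field L] [NumberField L]

theorem posLog_of_one_le {x : ℝ} (h : 1 ≤ x) : Real.posLog x = Real.log x := by
  rw [Real.posLog_eq_log]
  rwa [abs_of_nonneg (zero_le_one.trans h)]

theorem log_le_posLog (x : ℝ) : Real.log x ≤ Real.posLog x := by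
  rw [Real.posLog_def]; exact le_max_right _ _

/-- radii `RI w`, `RF w` of the filled Julia sets -/
structure Rad (d : ℕ) (f : L[X]) where
  RI : InfinitePlace L → ℝ
  RF : FinitePlace L → ℝ
  hRI : ∀ w, 1 ≤ RI w
  hRF : ∀ w, 1 ≤ RF w
  fs : FS fun w => Real.log (RF w)
  d2 : 2 ≤ d
  monic : f.Monic
  deg : f.natDegree = d
  f1 : ∀ (w : FinitePlace L) (z : L), RF w < w z → w (f.eval z) = w z ^ d
  f2 : ∀ (w : FinitePlace L) (z : L), w z ≤ RF w → w (f.eval z) ≤ RF w ^ d
  i1 : ∀ (w : InfinitePlace L) (z : L), 4 * RI w < w z → (3 * w z) ^ d ≤ 4 ^ d * w (f.eval z)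
  i2 : ∀ (w : InfinitePlace L) (z : L), w (f.eval z) ≤ (w z + RI w) ^ d

namespace Rad

variable {d : ℕ} {f : L[X]} (P : Rad d f)

/-- excess at a finite place -/
noncomputable def xF (w : FinitePlace L) (z : L) : ℝ := exc w.val (P.RF w) z

/-- excess at an infinite place -/
noncomputable def xI (w : InfinitePlace L) (z : L) : ℝ := exc w.val (4 * P.RI w) z

theorem xF_nonneg (w : FinitePlace L) (z : L) : 0 ≤ P.xF w z := exc_nonneg _ _ _

theorem xI_nonneg (w : InfinitePlace L) (z : L) : 0 ≤ P.xI w z := exc_nonneg _ _ _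

theorem fsX (z : L) : FS fun w => P.xF w z := fs_exc P.hRF z

theorem four_RI (w : InfinitePlace L) : 1 ≤ 4 * P.RI w := by linarith [P.hRI w]

theorem xF_eq {w : FinitePlace L} {z : L} (h : P.RF w < w z) :
    P.xF w z = Real.log (w z) - Real.log (P.RF w) := by
  have h0 : 0 < P.RF w := zero_lt_one.trans_le (P.hRF w)
  unfold xF exc
  have h1 : (w.val z) / P.RF w = w z / P.RF w := rfl
  rw [h1, max_eq_right ((one_le_div h0).2 h.le), Real.log_div (h0.trans h).ne' h0.ne']

theorem xF_eq_zero {w : FinitePlace L} {z : L} (h : w z ≤ P.RF w) : P.xF w z = 0 := by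
  have h0 : 0 < P.RF w := zero_lt_one.trans_le (P.hRF w)
  unfold xF exc
  have h1 : (w.val z) / P.RF w = w z / P.RF w := rfl
  rw [h1, max_eq_left ((div_le_one h0).2 h), Real.log_one]

theorem xI_eq {w : InfinitePlace L} {z : L} (h : 4 * P.RI w < w z) :
    P.xI w z = Real.log (w z) - Real.log (4 * P.RI w) := by
  have h0 : 0 < 4 * P.RI w := zero_lt_one.trans_le (P.four_RI w)
  unfold xI exc
  have h1 : (w.val z) / (4 * P.RI w) = w z / (4 * P.RI w) := rfl
  rw [h1, max_eq_right ((one_le_div h0).2 h.le), Real.log_div (h0.trans h).ne' h0.ne']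

theorem xI_eq_zero {w : InfinitePlace L} {z : L} (h : w z ≤ 4 * P.RI w) : P.xI w z = 0 := by
  have h0 : 0 < 4 * P.RI w := zero_lt_one.trans_le (P.four_RI w)
  unfold xI exc
  have h1 : (w.val z) / (4 * P.RI w) = w z / (4 * P.RI w) := rfl
  rw [h1, max_eq_left ((div_le_one h0).2 h), Real.log_one]

theorem le_xF (w : FinitePlace L) (z : L) (hz : w z ≠ 0) :
    Real.log (w z) - Real.log (P.RF w) ≤ P.xF w z := by
  rcases le_or_gt (w z) (P.RF w) with h | h
  · rw [P.xF_eq_zero h]
    have h1 : 0 < w z := lt_of_le_of_ne (w.val.nonneg z) (Ne.symm hz)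
    linarith [Real.log_le_log h1 h]
  · rw [P.xF_eq h]

theorem le_xI (w : InfinitePlace L) (z : L) (hz : w z ≠ 0) :
    Real.log (w z) - Real.log (4 * P.RI w) ≤ P.xI w z := by
  rcases le_or_gt (w z) (4 * P.RI w) with h | h
  · rw [P.xI_eq_zero h]
    have h1 : 0 < w z := lt_of_le_of_ne (w.val.nonneg z) (Ne.symm hz)
    linarith [Real.log_le_log h1 h]
  · rw [P.xI_eq h]

theorem logRF_nonneg (w : FinitePlace L) : 0 ≤ Real.log (P.RF w) := Real.log_nonneg (P.hRF w)

theorem logRI_nonneg (w : InfinitePlace L) : 0 ≤ Real.log (P.RI w) := Real.log_nonneg (P.hRI w)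

/-- escape at finite places -/
theorem xF_step (w : FinitePlace L) (z : L) : d * P.xF w z ≤ P.xF w (f.eval z) := by
  rcases le_or_gt (w z) (P.RF w) with h | h
  · rw [P.xF_eq_zero h, mul_zero]; exact P.xF_nonneg _ _
  · have h0 : 0 < P.RF w := zero_lt_one.trans_le (P.hRF w)
    have h1 : w (f.eval z) ≠ 0 := by rw [P.f1 w z h]; exact pow_ne_zero _ (h0.trans h).ne'
    refine le_trans ?_ (P.le_xF w _ h1)
    rw [P.xF_eq h, P.f1 w z h, Real.log_pow]
    have h2 : (1 : ℝ) ≤ d := by exact_mod_cast (one_le_two.trans P.d2)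
    nlinarith [P.logRF_nonneg w]

theorem xF_escape (w : FinitePlace L) (z : L) (h : P.RF w < w z) :
    Real.log (P.RF w) ≤ P.xF w (f.eval z) := by
  have h0 : 0 < P.RF w := zero_lt_one.trans_le (P.hRF w)
  have h1 : w (f.eval z) ≠ 0 := by rw [P.f1 w z h]; exact pow_ne_zero _ (h0.trans h).ne'
  refine le_trans ?_ (P.le_xF w _ h1)
  rw [P.f1 w z h, Real.log_pow]
  have h2 : (2 : ℝ) ≤ d := by exact_mod_cast P.d2
  have h3 : Real.log (P.RF w) ≤ Real.log (w z) := Real.log_le_log h0 h.le
  nlinarith [P.logRF_nonneg w]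

theorem log_i1 (w : InfinitePlace L) (z : L) (h : 4 * P.RI w < w z) :
    w (f.eval z) ≠ 0 ∧ d * Real.log (w z) - d * (Real.log 4 - Real.log 3) ≤
      Real.log (w (f.eval z)) := by
  have h0 : 0 < 4 * P.RI w := zero_lt_one.trans_le (P.four_RI w)
  have hz : 0 < w z := h0.trans h
  have h1 := P.i1 w z h
  have h2 : 0 < (3 * w z) ^ d := by positivity
  have h3 : 0 < w (f.eval z) := by
    by_contra hc
    have h4 : w (f.eval z) = 0 := le_antisymm (not_lt.1 hc) (w.val.nonneg _)
    rw [h4, mul_zero] at h1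
    linarith
  refine ⟨h3.ne', ?_⟩
  have h5 := Real.log_le_log h2 h1
  rw [Real.log_pow, Real.log_mul (by norm_num) hz.ne', Real.log_mul (by positivity) h3.ne',
    Real.log_pow] at h5
  linarith

theorem log43 : 2 * (Real.log 4 - Real.log 3) ≤ Real.log 4 := by
  have h : Real.log 4 ≤ 2 * Real.log 3 := by
    rw [← Real.log_rpow (by norm_num)]
    exact Real.log_le_log (by norm_num) (by norm_num)
  linarith

theorem log34 : 0 ≤ Real.log 4 - Real.log 3 := by
  have := Real.log_le_log (by norm_num : (0 : ℝ) < 3) (by norm_num : (3 : ℝ) ≤ 4)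
  linarith

/-- `d (log 4 - log 3) ≤ (d - 1) log 4` -/
theorem log_const (P : Rad d f) :
    d * (Real.log 4 - Real.log 3) ≤ (d - 1) * Real.log 4 := by
  have h2 : (2 : ℝ) ≤ d := by exact_mod_cast P.d2
  have h3 := log43
  have h4 : 0 ≤ Real.log 4 := Real.log_nonneg (by norm_num)
  nlinarith [log34]

theorem xI_step (w : InfinitePlace L) (z : L) : d * P.xI w z ≤ P.xI w (f.eval z) := by
  rcases le_or_gt (w z) (4 * P.RI w) with h | h
  · rw [P.xI_eq_zero h, mul_zero]; exact P.xI_nonneg _ _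
  · obtain ⟨h1, h2⟩ := P.log_i1 w z h
    refine le_trans ?_ (P.le_xI w _ h1)
    rw [P.xI_eq h, Real.log_mul (by norm_num) (zero_lt_one.trans_le (P.hRI w)).ne']
    have h3 : (2 : ℝ) ≤ d := by exact_mod_cast P.d2
    have h4 := P.log_const
    nlinarith [P.logRI_nonneg w]

theorem xI_escape (w : InfinitePlace L) (z : L) (h : 4 * P.RI w < w z) :
    Real.log (P.RI w) ≤ P.xI w (f.eval z) := by
  obtain ⟨h1, h2⟩ := P.log_i1 w z h
  refine le_trans ?_ (P.le_xI w _ h1)
  have h0 : 0 < P.RI w := zero_lt_one.trans_le (P.hRI w)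
  have h5 : Real.log (4 * P.RI w) ≤ Real.log (w z) := Real.log_le_log (by linarith) h.le
  rw [Real.log_mul (by norm_num) h0.ne'] at h5 ⊢
  have h3 : (2 : ℝ) ≤ d := by exact_mod_cast P.d2
  have h4 := P.log_const
  have h6 := P.logRI_nonneg w
  nlinarith

/-! ### heights -/

/-- total excess -/
noncomputable def xx (z : L) : ℝ := tot (fun w => P.xI w z) (fun w => P.xF w z)

theorem xx_nonneg (z : L) : 0 ≤ P.xx z := tot_nonneg (fun w => P.xI_nonneg w z)
  fun w => P.xF_nonneg w z

theorem xx_le (z : L) : P.xx z ≤ Height.logHeight₁ z := by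
  unfold xx xI xF
  exact tot_exc_le (RI := fun w => 4 * P.RI w) (RF := P.RF) P.four_RI P.hRF z

theorem xx_step (z : L) : d * P.xx z ≤ P.xx (f.eval z) := by
  unfold xx
  rw [← tot_mul]
  exact tot_le ((P.fsX z).mul d) (P.fsX _) (fun w => P.xI_step w z) fun w => P.xF_step w z

theorem xx_iter (z : L) (n : ℕ) : (d : ℝ) ^ n * P.xx z ≤ P.xx ((fun x => f.eval x)^[n] z) := by
  induction n with
  | zero => simp
  | succ n ih =>
    rw [Function.iterate_succ_apply']
    refine le_trans ?_ (P.xx_step _)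
    rw [pow_succ]
    have h : (0 : ℝ) ≤ d := Nat.cast_nonneg _
    calc (d : ℝ) ^ n * d * P.xx z = d * (d ^ n * P.xx z) := by ring
      _ ≤ d * P.xx ((fun x => f.eval x)^[n] z) := mul_le_mul_of_nonneg_left ih h

/-- the height of the radii -/
noncomputable def hR : ℝ := tot (fun w => Real.log (P.RI w)) (fun w => Real.log (P.RF w))

theorem hR_nonneg : 0 ≤ P.hR := tot_nonneg P.logRI_nonneg P.logRF_nonneg

theorem upF (w : FinitePlace L) (z : L) :
    Real.posLog (w (f.eval z)) ≤ d * Real.posLog (w z) + d * Real.log (P.RF w) := by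
  have hd : (0 : ℝ) ≤ d := Nat.cast_nonneg _
  have h0 : 0 < P.RF w := zero_lt_one.trans_le (P.hRF w)
  rcases le_or_gt (w z) (P.RF w) with h | h
  · have h1 := P.f2 w z h
    have h2 : Real.posLog (w (f.eval z)) ≤ Real.posLog (P.RF w ^ d) :=
      Real.posLog_le_posLog (w.val.nonneg _) h1
    rw [posLog_of_one_le (one_le_pow₀ (P.hRF w) : 1 ≤ P.RF w ^ d), Real.log_pow] at h2
    nlinarith [Real.posLog_nonneg (x := w z)]
  · have h4 : 1 ≤ w z := (P.hRF w).trans h.le
    rw [P.f1 w z h, posLog_of_one_le (one_le_pow₀ h4 : 1 ≤ w z ^ d), Real.log_pow,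
      posLog_of_one_le h4]
    nlinarith [P.logRF_nonneg w]

theorem loF (w : FinitePlace L) (z : L) :
    d * Real.posLog (w z) ≤ Real.posLog (w (f.eval z)) + d * Real.log (P.RF w) := by
  have hd : (0 : ℝ) ≤ d := Nat.cast_nonneg _
  have h0 : 0 < P.RF w := zero_lt_one.trans_le (P.hRF w)
  rcases le_or_gt (w z) (P.RF w) with h | h
  · have h2 : Real.posLog (w z) ≤ Real.posLog (P.RF w) := Real.posLog_le_posLog (w.val.nonneg _) h
    rw [posLog_of_one_le (P.hRF w)] at h2
    nlinarith [Real.posLog_nonneg (x := w (f.eval z))]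
  · have h4 : 1 ≤ w z := (P.hRF w).trans h.le
    rw [P.f1 w z h, posLog_of_one_le (one_le_pow₀ h4 : 1 ≤ w z ^ d), Real.log_pow,
      posLog_of_one_le h4]
    nlinarith [P.logRF_nonneg w]

theorem upI (w : InfinitePlace L) (z : L) :
    Real.posLog (w (f.eval z)) ≤ d * Real.posLog (w z) + d * Real.log (P.RI w) +
      d * Real.log 2 := by
  have hd : (0 : ℝ) ≤ d := Nat.cast_nonneg _
  have h0 : 0 < P.RI w := zero_lt_one.trans_le (P.hRI w)
  have hz : 0 ≤ w z := w.val.nonneg _
  have h1 : w (f.eval z) ≤ (2 * P.RI w * max 1 (w z)) ^ d := by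
    refine (P.i2 w z).trans (pow_le_pow_left₀ (by positivity) ?_ _)
    have h3 : w z ≤ P.RI w * max 1 (w z) := by
      calc w z ≤ max 1 (w z) := le_max_right _ _
        _ ≤ P.RI w * max 1 (w z) := le_mul_of_one_le_left (by positivity) (P.hRI w)
    have h4 : P.RI w ≤ P.RI w * max 1 (w z) := le_mul_of_one_le_right h0.le (le_max_left _ _)
    linarith
  have h2 : Real.posLog (w (f.eval z)) ≤ Real.posLog ((2 * P.RI w * max 1 (w z)) ^ d) :=
    Real.posLog_le_posLog (w.val.nonneg _) h1
  have h5 : 1 ≤ 2 * P.RI w * max 1 (w z) := by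
    have h6 : 1 ≤ max 1 (w z) := le_max_left _ _
    have := P.hRI w
    nlinarith
  rw [posLog_of_one_le (one_le_pow₀ h5 : 1 ≤ (2 * P.RI w * max 1 (w z)) ^ d),
    Real.log_pow, Real.log_mul (by positivity) (by positivity),
    Real.log_mul (by norm_num) h0.ne', ← Real.posLog_eq_log_max_one hz] at h2
  linarith

theorem loI (w : InfinitePlace L) (z : L) :
    d * Real.posLog (w z) ≤ Real.posLog (w (f.eval z)) + d * Real.log (P.RI w) +
      d * Real.log 4 := by
  have hd : (0 : ℝ) ≤ d := Nat.cast_nonneg _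
  have h0 : 0 < P.RI w := zero_lt_one.trans_le (P.hRI w)
  have h44 := P.four_RI w
  rcases le_or_gt (w z) (4 * P.RI w) with h | h
  · have h2 : Real.posLog (w z) ≤ Real.posLog (4 * P.RI w) :=
      Real.posLog_le_posLog (w.val.nonneg _) h
    rw [posLog_of_one_le h44, Real.log_mul (by norm_num) h0.ne'] at h2
    nlinarith [Real.posLog_nonneg (x := w (f.eval z))]
  · obtain ⟨h1, h2⟩ := P.log_i1 w z h
    have h3 : Real.log (w (f.eval z)) ≤ Real.posLog (w (f.eval z)) := log_le_posLog _
    have h4 : Real.posLog (w z) = Real.log (w z) := posLog_of_one_le (by linarith)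
    rw [h4]
    have h5 : 0 ≤ Real.log 3 := Real.log_nonneg (by norm_num)
    nlinarith [P.logRI_nonneg w]

/-- the constant in the comparison of heights -/
noncomputable def cst : ℝ := d * P.hR + Module.finrank ℚ L * (d * Real.log 4)

theorem cst_nonneg : 0 ≤ P.cst := by
  unfold cst
  have h1 := P.hR_nonneg
  have h2 : 0 ≤ Real.log 4 := Real.log_nonneg (by norm_num)
  positivity

theorem height_up (z : L) :
    Height.logHeight₁ (f.eval z) ≤ d * Height.logHeight₁ z + P.cst := by
  rw [logHeight_eq_tot, logHeight_eq_tot]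
  have h1 : d * tot (L := L) (fun w => Real.posLog (w z)) (fun w => Real.posLog (w z)) + P.cst =
      tot (L := L) (fun w => (d * Real.posLog (w z) + d * Real.log (P.RI w)) + d * Real.log 4)
        (fun w => (d * Real.posLog (w z) + d * Real.log (P.RF w)) + 0) := by
    rw [tot_add (((fs_posLog z).mul d).add (P.fs.mul d)) (by simp [FS]),
      tot_add ((fs_posLog z).mul d) (P.fs.mul d), tot_mul, tot_mul, tot_const]
    unfold cst hR
    ring
  rw [h1]
  refine tot_le (fs_posLog _) ((((fs_posLog z).mul d).add (P.fs.mul d)).add (by simp [FS]))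
    (fun w => ?_) fun w => ?_
  · refine (P.upI w z).trans ?_
    have : Real.log 2 ≤ Real.log 4 := Real.log_le_log (by norm_num) (by norm_num)
    have hd : (0 : ℝ) ≤ d := Nat.cast_nonneg _
    nlinarith
  · rw [add_zero]; exact P.upF w z

theorem height_lo (z : L) :
    d * Height.logHeight₁ z ≤ Height.logHeight₁ (f.eval z) + P.cst := by
  rw [logHeight_eq_tot, logHeight_eq_tot]
  have h1 : tot (L := L) (fun w => Real.posLog (w (f.eval z)))
      (fun w => Real.posLog (w (f.eval z))) + P.cst =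
      tot (L := L) (fun w => (Real.posLog (w (f.eval z)) + d * Real.log (P.RI w)) +
        d * Real.log 4)
        (fun w => (Real.posLog (w (f.eval z)) + d * Real.log (P.RF w)) + 0) := by
    rw [tot_add ((fs_posLog _).add (P.fs.mul d)) (by simp [FS]),
      tot_add (fs_posLog _) (P.fs.mul d), tot_mul, tot_const]
    unfold cst hR
    ring
  rw [h1, ← tot_mul]
  refine tot_le ((fs_posLog _).mul d) (((fs_posLog _).add (P.fs.mul d)).add (by simp [FS]))
    (fun w => ?_) fun w => ?_
  · exact P.loI w z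
  · rw [add_zero]; exact P.loF w z

end Rad

end Pool.Agent.Lib_helper5.DLH
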