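import Pool.Agent.Lib_helper5.DLH.Resid

/-!
# Unicritical polynomials
-/

set_option autoImplicit false
set_option linter.unusedSectionVars false

open Polynomial Finset NumberField Filter Topology

namespace Pool.Agent.Lib_helper5.DLH

variable {L : Type*} [Field L]

/-- the radius `max (1, |c|) ^ (1 / d)` -/
noncomputable def uR (v : AbsoluteValue L ℝ) (d : ℕ) (c : L) : ℝ := max 1 (v c) ^ (1 / (d : ℝ))

theorem one_le_uR (v : AbsoluteValue L ℝ) (d : ℕ) (c : L) : 1 ≤ uR v d c :=
  Real.one_le_rpow (le_max_left _ _) (by positivity)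

theorem uR_pow (v : AbsoluteValue L ℝ) {d : ℕ} (hd : d ≠ 0) (c : L) :
    uR v d c ^ d = max 1 (v c) := by
  unfold uR
  rw [← Real.rpow_natCast, ← Real.rpow_mul (by positivity)]
  have : (d : ℝ) ≠ 0 := by exact_mod_cast hd
  rw [one_div_mul_cancel this, Real.rpow_one]

theorem log_uR (v : AbsoluteValue L ℝ) (d : ℕ) (c : L) :
    Real.log (uR v d c) = 1 / (d : ℝ) * Real.posLog (v c) := by
  unfold uR
  rw [Real.log_rpow (by positivity), ← Real.posLog_eq_log_max_one (v.nonneg _)]

theorem uR_eq (v : AbsoluteValue L ℝ) {d : ℕ} (hd : d ≠ 0) {c : L} (h : 1 < uR v d c) :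
    v c = uR v d c ^ d := by
  have h1 : 1 < uR v d c ^ d := one_lt_pow₀ h hd
  rw [uR_pow v hd] at h1 ⊢
  rcases lt_max_iff.1 h1 with h2 | h2
  · exact absurd h2 (lt_irrefl _)
  · rw [max_eq_right h2.le]

/-- the polynomial `X ^ d + c` -/
noncomputable def upoly (d : ℕ) (c : L) : L[X] := X ^ d + C c

theorem upoly_monic {d : ℕ} (hd : d ≠ 0) (c : L) : (upoly d c).Monic := monic_X_pow_add_C c hd

theorem upoly_deg (d : ℕ) (c : L) : (upoly d c).natDegree = d := natDegree_X_pow_add_C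

theorem upoly_eval' (d : ℕ) (c z : L) : (upoly d c).eval z = z ^ d + c := by simp [upoly]

/-- the real case: distance of numbers of the same sign -/
theorem real_dist {d : ℕ} (hd : d ≠ 0) {x y r : ℝ} (hr : 0 ≤ r) (hx : r ≤ |x|)
    (hxy : 0 < x ↔ 0 < y) : |x - y| * r ^ (d - 1) ≤ |x ^ d - y ^ d| := by
  have main : ∀ a b : ℝ, 0 ≤ a → 0 ≤ b → r ≤ a → |a - b| * r ^ (d - 1) ≤ |a ^ d - b ^ d| := by
    intro a b ha hb hra
    have h1 := (Commute.all a b).mul_geom_sum₂ d
    rw [← h1, abs_mul]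
    refine mul_le_mul_of_nonneg_left ?_ (abs_nonneg _)
    refine le_trans ?_ (le_abs_self _)
    have h2 : d - 1 ∈ Finset.range d := Finset.mem_range.2 (by omega)
    have h3 : a ^ (d - 1) * b ^ (d - 1 - (d - 1)) ≤
        ∑ i ∈ Finset.range d, a ^ i * b ^ (d - 1 - i) :=
      Finset.single_le_sum (f := fun i => a ^ i * b ^ (d - 1 - i))
        (fun i _ => by positivity) h2
    have h4 : r ^ (d - 1) ≤ a ^ (d - 1) := pow_le_pow_left₀ hr hra _
    simpa using h4.trans (by simpa using h3)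
  rcases lt_or_ge 0 x with h | h
  · have h' := hxy.1 h
    exact main x y h.le h'.le (by rwa [abs_of_pos h] at hx)
  · have h' : y ≤ 0 := by
      by_contra hc
      exact absurd (hxy.2 (not_le.1 hc)) (not_lt.2 h)
    have h1 := main (-x) (-y) (by linarith) (by linarith) (by rwa [abs_of_nonpos h] at hx)
    have h2 : |-x - -y| = |x - y| := by rw [← abs_neg (x - y)]; congr 1; ring
    have h3 : |(-x) ^ d - (-y) ^ d| = |x ^ d - y ^ d| := by
      rcases Nat.even_or_odd d with he | ho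
      · rw [he.neg_pow, he.neg_pow]
      · rw [ho.neg_pow, ho.neg_pow, ← abs_neg (x ^ d - y ^ d)]; congr 1; ring
    rwa [h2, h3] at h1

/-- the real case: large values -/
theorem real_large {d : ℕ} (hd : 3 ≤ d) {x c R : ℝ} (hR : 2 ^ (d + 5) < R) (hc : |c| = R ^ d)
    (h : |x ^ d + c| ≤ 4 * R) : R / 2 ≤ |x| ∧ (Odd d → (0 < x ↔ c < 0)) := by
  have h64 : (64 : ℝ) ≤ 2 ^ (d + 5) := by
    calc (64 : ℝ) = 2 ^ 6 := by norm_num
      _ ≤ 2 ^ (d + 5) := pow_le_pow_right₀ (by norm_num) (by omega)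
  have hR64 : 64 < R := lt_of_le_of_lt h64 hR
  have hR0 : 0 < R := by linarith
  have h1 : R ^ 3 ≤ R ^ d := pow_le_pow_right₀ (by linarith) hd
  have h2 : 8 * R < R ^ 3 := by
    have e : R ^ 3 = R * R * R := by ring
    have e1 : 8 < R * R := by nlinarith
    rw [e]
    exact mul_lt_mul_of_pos_right e1 hR0
  have h3 : R ^ d - 4 * R ≤ |x| ^ d := by
    rw [← abs_pow]
    have : |c| ≤ |x ^ d + c| + |x ^ d| := by
      have := abs_sub (x ^ d + c) (x ^ d)
      rwa [add_sub_cancel_left] at this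
    linarith
  constructor
  · by_contra hcon
    rw [not_le] at hcon
    have h4 : |x| ^ d ≤ (R / 2) ^ d := pow_le_pow_left₀ (abs_nonneg _) hcon.le _
    have h5 : (R / 2) ^ d ≤ R ^ d / 2 := by
      rw [div_pow]
      refine div_le_div_of_nonneg_left (by positivity) (by norm_num) ?_
      calc (2 : ℝ) = 2 ^ 1 := by norm_num
        _ ≤ 2 ^ d := pow_le_pow_right₀ (by norm_num) (by omega)
    linarith
  · intro ho
    have h6 : 4 * R < |c| := by rw [hc]; linarith
    have h7 := abs_le.1 h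
    constructor
    · intro hx
      by_contra hcon
      have h8 : 0 < x ^ d := pow_pos hx _
      rw [not_lt] at hcon
      rw [abs_of_nonneg hcon] at h6
      linarith
    · intro hc0
      rw [abs_of_neg hc0] at h6
      have h8 : 0 < x ^ d := by linarith
      exact ho.pow_pos_iff.1 h8

section

variable [NumberField L]

/-- The finite places at which the rational points are thin. -/
def Good (d : ℕ) (c : L) (w : FinitePlace L) : Prop :=
  (w (d : L) = 1 ∧ ¬ d ∣ Ideal.absNorm w.maximalIdeal.asIdeal - 1) ∨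
    ∀ z : L, w c ≤ w (z ^ d + c)

theorem fs_uR (d : ℕ) (c : L) : FS fun w : FinitePlace L => Real.log (uR w.val d c) := by
  have h : (fun w : FinitePlace L => Real.log (uR w.val d c)) =
      fun w : FinitePlace L => 1 / (d : ℝ) * Real.posLog (w c) := by
    funext w
    exact log_uR w.val d c
  rw [h]
  exact (fs_posLog c).mul _

theorem unit_pow (w : FinitePlace L) {d : ℕ} (hd : w (d : L) = 1) {u : L} (hu : w u = 1)
    (h : w (u - 1) < 1) : w (u ^ d - 1) = w (u - 1) := by
  have h1 : u ^ d - 1 = (∑ i ∈ Finset.range d, u ^ i) * (u - 1) := (geom_sum_mul u d).symm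
  rw [h1, map_mul]
  have hi : ∀ i : ℕ, w (u ^ i - 1) < 1 := by
    intro i
    rw [← geom_sum_mul u i, mul_comm]
    refine mul_lt_one h (sum_le' w _ _ zero_le_one fun j _ => ?_)
    rw [map_pow, hu, one_pow]
  have h2 : (d : L) - (d - ∑ i ∈ Finset.range d, u ^ i) = ∑ i ∈ Finset.range d, u ^ i := by ring
  have h3 : w ((d : L) - ∑ i ∈ Finset.range d, u ^ i) < 1 := by
    have e : (d : L) - ∑ i ∈ Finset.range d, u ^ i = -∑ i ∈ Finset.range d, (u ^ i - 1) := by
      rw [Finset.sum_sub_distrib]; simp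
    rw [e]
    have e2 : w (-∑ i ∈ Finset.range d, (u ^ i - 1)) = w (∑ i ∈ Finset.range d, (u ^ i - 1)) :=
      w.val.map_neg _
    rw [e2]
    clear e e2 h1 h2 hd
    induction d with
    | zero => simp
    | succ n ih => rw [Finset.sum_range_succ]; exact add_lt_one' ih (hi n)
  have h4 : w (∑ i ∈ Finset.range d, u ^ i) = 1 := by
    rw [← h2, ← hd]
    exact ult_eq (by rw [hd]; exact h3)
  rw [h4, one_mul]

/-- the case of a finite place with few roots of unity -/
theorem unic_F (w : FinitePlace L) {d : ℕ} (hd : 3 ≤ d) {c : L} (hg : Good d c w)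
    (hR : 1 < uR w.val d c) {Z : Finset L} (hZ : Z.Nonempty)
    (h : ∀ z ∈ Z, w z ≤ uR w.val d c ∧ w ((upoly d c).eval z) ≤ uR w.val d c) :
    ∃ G : L[X], G.Monic ∧ 1 ≤ G.natDegree ∧ G.natDegree ≤ d ∧
      ∀ z ∈ Z, w (G.eval z) ≤ (uR w.val d c)⁻¹ := by
  classical
  set R := uR w.val d c with hRdef
  have hd0 : d ≠ 0 := by omega
  have hR0 : 0 < R := by linarith
  have hc : w c = R ^ d := uR_eq w.val hd0 hR
  have hRd : R < R ^ d := by
    calc R = R ^ 1 := (pow_one R).symm
      _ < R ^ d := pow_lt_pow_right₀ hR (by omega)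
  obtain ⟨z0, hz0⟩ := hZ
  rcases hg with ⟨hdw, hq⟩ | hg
  swap
  · exfalso
    have h1 := (h z0 hz0).2
    rw [upoly_eval'] at h1
    have h2 := hg z0
    rw [hc] at h2
    linarith
  -- all points are on the circle
  have hcirc : ∀ z ∈ Z, w z = R := by
    intro z hz
    have h1 := (h z hz).2
    rw [upoly_eval'] at h1
    have h2 : w (z ^ d) = R ^ d := by
      have h3 : w (c - (z ^ d + c)) = w c := ult_eq (by rw [hc]; linarith)
      have h4 : c - (z ^ d + c) = -(z ^ d) := by ring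
      rw [h4] at h3
      have h5 : w (-(z ^ d)) = w (z ^ d) := w.val.map_neg _
      rw [← h5, h3, hc]
    rw [map_pow] at h2
    exact (pow_left_inj₀ (w.val.nonneg _) hR0.le hd0).1 h2
  have hne : ∀ z ∈ Z, z ≠ 0 := fun z hz h0 => by
    have := hcirc z hz
    rw [h0, map_zero] at this
    linarith
  have hdiff : ∀ z ∈ Z, ∀ t ∈ Z, w (z ^ d - t ^ d) ≤ R := by
    intro z hz t ht
    have e : z ^ d - t ^ d = (z ^ d + c) - (t ^ d + c) := by ring
    rw [e]
    have h1 := (h z hz).2
    have h2 := (h t ht).2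
    rw [upoly_eval'] at h1 h2
    exact ult h1 h2
  have hquo : ∀ z ∈ Z, ∀ t ∈ Z, w (z / t) = 1 ∧ w ((z / t) ^ d - 1) ≤ R / R ^ d := by
    intro z hz t ht
    have ht0 := hne t ht
    refine ⟨by rw [map_div₀, hcirc z hz, hcirc t ht, div_self hR0.ne'], ?_⟩
    have e : (z / t) ^ d - 1 = (z ^ d - t ^ d) / t ^ d := by
      rw [div_pow, sub_div, div_self (pow_ne_zero _ ht0)]
    rw [e, map_div₀, map_pow, hcirc t ht]
    exact div_le_div_of_nonneg_right (hdiff z hz t ht) (by positivity)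
  have hlt : R / R ^ d < 1 := (div_lt_one (by positivity)).2 hRd
  obtain ⟨r, H, hH1, hH2, hH3⟩ := exists_cl w hd hq
  have hz00 := hne z0 hz0
  obtain ⟨G, hG1, hG2, hG3, hG4⟩ := clusters w.val (Z := Z) ⟨z0, hz0⟩ (fun z => r (z / z0))
    (m := d - 2) (a := R ^ 2 / R ^ d) (b := R) (by
      refine le_trans (Finset.card_le_card ?_) hH1
      intro x hx
      obtain ⟨z, hz, rfl⟩ := Finset.mem_image.1 hx
      obtain ⟨h1, h2⟩ := hquo z hz z0 hz0
      exact hH2 _ h1 (h2.trans_lt hlt)) (by positivity) hR.le (by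
      intro z hz t ht hcl
      obtain ⟨h1, h2⟩ := hquo z hz z0 hz0
      obtain ⟨h3, h4⟩ := hquo t ht z0 hz0
      have h5 : w (z / z0 - t / z0) < 1 := hH3 _ _ h1 h3 hcl
      have ht0 := hne t ht
      obtain ⟨h6, h7⟩ := hquo z hz t ht
      have h8 : w (z / t - 1) < 1 := by
        have e : z / t - 1 = (z / z0 - t / z0) * (z0 / t) := by
          field_simp
        rw [e]
        refine mul_lt_one h5 ?_
        rw [(hquo z0 hz0 t ht).1]
      have h9 := unit_pow w hdw h6 h8
      have e : z - t = t * (z / t - 1) := by field_simp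
      show w (z - t) ≤ _
      rw [e, map_mul, hcirc t ht, ← h9]
      calc R * w ((z / t) ^ d - 1) ≤ R * (R / R ^ d) := mul_le_mul_of_nonneg_left h7 hR0.le
        _ = R ^ 2 / R ^ d := by ring) (by
      intro z hz t ht
      exact ult (w := w) (hcirc z hz).le (hcirc t ht).le)
  refine ⟨G, hG1, hG2, by omega, fun z hz => (hG4 z hz).trans_eq ?_⟩
  obtain ⟨e, rfl⟩ : ∃ e, d = e + 3 := ⟨d - 3, by omega⟩
  have h1 : e + 3 - 2 - 1 = e := by omega
  rw [h1]
  field_simp
  ring

/-- the case of a real place -/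
theorem unic_I (w : InfinitePlace L) (hw : w.IsReal) {d : ℕ} (hd : 3 ≤ d) {c : L}
    (hR : 2 ^ (d + 5) < uR w.val d c) {Z : Finset L} (hZ : Z.Nonempty)
    (h : ∀ z ∈ Z, w z ≤ 4 * uR w.val d c ∧ w ((upoly d c).eval z) ≤ 4 * uR w.val d c) :
    ∃ G : L[X], G.Monic ∧ 1 ≤ G.natDegree ∧ G.natDegree ≤ d ∧
      ∀ z ∈ Z, w (G.eval z) ≤ 2 ^ (d + 5) * (uR w.val d c)⁻¹ := by
  classical
  set R := uR w.val d c with hRdef
  have hd0 : d ≠ 0 := by omega
  have h64 : (64 : ℝ) ≤ 2 ^ (d + 5) := by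
    calc (64 : ℝ) = 2 ^ 6 := by norm_num
      _ ≤ 2 ^ (d + 5) := pow_le_pow_right₀ (by norm_num) (by omega)
  have hR1 : 1 < R := by linarith
  have hR0 : 0 < R := by linarith
  have hc : w c = R ^ d := uR_eq w.val hd0 hR1
  set σ : L →+* ℝ := InfinitePlace.embedding_of_isReal hw with hσ
  have hwσ : ∀ x : L, w x = |σ x| := fun x => by
    rw [← Real.norm_eq_abs]
    exact (InfinitePlace.norm_embedding_of_isReal hw x).symm
  have hcσ : |σ c| = R ^ d := by rw [← hwσ, hc]
  have hev : ∀ z ∈ Z, |σ z ^ d + σ c| ≤ 4 * R := by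
    intro z hz
    have h1 := (h z hz).2
    rw [upoly_eval', hwσ, map_add, map_pow] at h1
    exact h1
  have hbig : ∀ z ∈ Z, R / 2 ≤ |σ z| ∧ (Odd d → (0 < σ z ↔ σ c < 0)) := fun z hz =>
    real_large hd hR hcσ (hev z hz)
  have hclose : ∀ z ∈ Z, ∀ t ∈ Z, (0 < σ z ↔ 0 < σ t) → w (z - t) ≤ 2 ^ (d + 2) * R ^ 2 / R ^ d := by
    intro z hz t ht hzt
    have h1 := real_dist hd0 (by positivity : 0 ≤ R / 2) (hbig z hz).1 hzt
    have h2 : |σ z ^ d - σ t ^ d| ≤ 8 * R := by
      have e : σ z ^ d - σ t ^ d = (σ z ^ d + σ c) - (σ t ^ d + σ c) := by ring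
      rw [e]
      refine (abs_sub _ _).trans ?_
      linarith [hev z hz, hev t ht]
    have h3 := h1.trans h2
    rw [hwσ, map_sub]
    rw [le_div_iff₀ (by positivity)]
    have e : (R / 2) ^ (d - 1) = R ^ (d - 1) / 2 ^ (d - 1) := div_pow _ _ _
    rw [e, mul_div_assoc', div_le_iff₀ (by positivity)] at h3
    obtain ⟨n, rfl⟩ : ∃ n, d = n + 1 := ⟨d - 1, by omega⟩
    simp only [Nat.add_sub_cancel] at h3
    calc |σ z - σ t| * R ^ (n + 1) = |σ z - σ t| * R ^ n * R := by ring
      _ ≤ 8 * R * 2 ^ n * R := mul_le_mul_of_nonneg_right h3 hR0.le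
      _ = 2 ^ (n + 1 + 2) * R ^ 2 := by ring
  have hfar : ∀ z ∈ Z, ∀ t ∈ Z, w (z - t) ≤ 8 * R := by
    intro z hz t ht
    have h1 : w (z - t) ≤ w z + w t := by
      have := w.val.add_le z (-t)
      rwa [← sub_eq_add_neg, w.val.map_neg] at this
    linarith [(h z hz).1, (h t ht).1]
  have hcl : ∀ z t : L, decide (0 < σ z) = decide (0 < σ t) → (0 < σ z ↔ 0 < σ t) := by
    intro z t hzt
    exact decide_eq_decide.1 hzt
  rcases Nat.even_or_odd d with he | ho
  · have hd4 : 4 ≤ d := by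
      rcases he with ⟨e, he⟩
      omega
    obtain ⟨G, hG1, hG2, hG3, hG4⟩ := clusters w.val hZ (fun z => decide (0 < σ z))
      (m := 2) (a := 2 ^ (d + 2) * R ^ 2 / R ^ d) (b := 8 * R)
      ((Finset.card_le_univ _).trans (by simp)) (by positivity) (by linarith)
      (fun z hz t ht hzt => hclose z hz t ht (hcl z t hzt)) hfar
    refine ⟨G, hG1, hG2, by omega, fun z hz => (hG4 z hz).trans ?_⟩
    have h1 : R ^ 4 ≤ R ^ d := pow_le_pow_right₀ hR1.le hd4
    have h2 : (2 : ℝ) ^ (d + 5) = 2 ^ (d + 2) * 8 := by rw [pow_add, pow_add]; norm_num; ring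
    rw [h2]
    have h3 : 2 ^ (d + 2) * R ^ 2 / R ^ d * (8 * R) ^ (2 - 1) =
        2 ^ (d + 2) * 8 * (R ^ 3 / R ^ d) := by
      simp only [Nat.reduceSub, pow_one]; ring
    rw [h3]
    refine mul_le_mul_of_nonneg_left ?_ (by positivity)
    rw [div_le_iff₀ (by positivity), ← div_eq_inv_mul, le_div_iff₀ hR0]
    calc R ^ 3 * R = R ^ 4 := by ring
      _ ≤ R ^ d := h1
  · obtain ⟨G, hG1, hG2, hG3, hG4⟩ := clusters w.val hZ (fun z => decide (0 < σ z))
      (m := 1) (a := 2 ^ (d + 2) * R ^ 2 / R ^ d) (b := 8 * R)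
      (by
        rw [Finset.card_le_one]
        intro a ha b hb
        obtain ⟨z, hz, rfl⟩ := Finset.mem_image.1 ha
        obtain ⟨t, ht, rfl⟩ := Finset.mem_image.1 hb
        exact decide_eq_decide.2 (((hbig z hz).2 ho).trans ((hbig t ht).2 ho).symm))
      (by positivity) (by linarith)
      (fun z hz t ht hzt => hclose z hz t ht (hcl z t hzt)) hfar
    refine ⟨G, hG1, hG2, by omega, fun z hz => (hG4 z hz).trans ?_⟩
    have h1 : R ^ 3 ≤ R ^ d := pow_le_pow_right₀ hR1.le hd
    have h2 : (2 : ℝ) ^ (d + 2) ≤ 2 ^ (d + 5) := pow_le_pow_right₀ (by norm_num) (by omega)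
    have h3 : 2 ^ (d + 2) * R ^ 2 / R ^ d * (8 * R) ^ (1 - 1) =
        2 ^ (d + 2) * (R ^ 2 / R ^ d) := by
      simp only [Nat.sub_self, pow_zero]; ring
    rw [h3]
    refine mul_le_mul h2 ?_ (by positivity) (by positivity)
    rw [div_le_iff₀ (by positivity), ← div_eq_inv_mul, le_div_iff₀ hR0]
    calc R ^ 2 * R = R ^ 3 := by ring
      _ ≤ R ^ d := h1

open Classical in
/-- the thin structure for `X ^ d + c` -/
noncomputable def thinU {d : ℕ} (hd : 3 ≤ d) (c : L) :
    Thin d (upoly d c) (Set.univ : Set L) (2 ^ (d + 5)) where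
  RI w := uR w.val d c
  RF w := uR w.val d c
  hRI w := one_le_uR _ _ _
  hRF w := one_le_uR _ _ _
  fs := fs_uR d c
  d2 := by omega
  monic := upoly_monic (by omega) c
  deg := upoly_deg d c
  f1 w z hz := by
    have hd0 : d ≠ 0 := by omega
    have h1 : w c < w (z ^ d) := by
      rw [map_pow]
      calc w c ≤ max 1 (w.val c) := le_max_right _ _
        _ = uR w.val d c ^ d := (uR_pow w.val hd0 c).symm
        _ < w z ^ d := pow_lt_pow_left₀ hz (zero_le_one.trans (one_le_uR _ _ _)) hd0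
    have h2 : w (-c) = w c := w.val.map_neg _
    rw [upoly_eval', ← map_pow]
    have h3 := ult_eq (w := w) (x := z ^ d) (y := -c) (by rw [h2]; exact h1)
    rwa [sub_neg_eq_add] at h3
  f2 w z hz := by
    have hd0 : d ≠ 0 := by omega
    rw [upoly_eval']
    refine (FinitePlace.add_le w _ _).trans (max_le ?_ ?_)
    · rw [map_pow]
      exact pow_le_pow_left₀ (w.val.nonneg _) hz _
    · rw [uR_pow w.val hd0]
      exact le_max_right _ _
  i1 w z hz := by
    have hd0 : d ≠ 0 := by omega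
    have hR := one_le_uR w.val d c
    have h1 : w c ≤ uR w.val d c ^ d := by
      rw [uR_pow w.val hd0]; exact le_max_right _ _
    have h2 : w z ^ d ≤ w (z ^ d + c) + w c := by
      have h3 := w.val.add_le (z ^ d + c) (-c)
      rw [add_neg_cancel_right, w.val.map_neg] at h3
      rw [← map_pow]
      exact h3
    have h4 : 4 ^ d * uR w.val d c ^ d ≤ w z ^ d := by
      rw [← mul_pow]
      exact pow_le_pow_left₀ (by positivity) hz.le _
    have h5 : (3 : ℝ) ^ d + 1 ≤ 4 ^ d := by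
      have h6 : (3 : ℝ) ^ d + 1 ^ d ≤ (3 + 1) ^ d := pow_add_pow_le (by norm_num) (by norm_num) hd0
      norm_num at h6 ⊢
      exact h6
    rw [upoly_eval', mul_pow]
    have h7 : (4 : ℝ) ^ d * w z ^ d ≤ 4 ^ d * w (z ^ d + c) + w z ^ d := by
      have h8 : (4 : ℝ) ^ d * w z ^ d ≤ 4 ^ d * (w (z ^ d + c) + w c) :=
        mul_le_mul_of_nonneg_left h2 (by positivity)
      have h9 : (4 : ℝ) ^ d * w c ≤ w z ^ d := (mul_le_mul_of_nonneg_left h1 (by positivity)).trans h4
      linarith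
    have h10 : 0 ≤ w z ^ d := pow_nonneg (w.val.nonneg _) _
    nlinarith
  i2 w z := by
    have hd0 : d ≠ 0 := by omega
    have hR := one_le_uR w.val d c
    have h1 : w c ≤ uR w.val d c ^ d := by
      rw [uR_pow w.val hd0]; exact le_max_right _ _
    rw [upoly_eval']
    have h2 : w (z ^ d + c) ≤ w (z ^ d) + w c := w.val.add_le _ _
    rw [map_pow] at h2
    have h3 : w z ^ d + uR w.val d c ^ d ≤ (w z + uR w.val d c) ^ d :=
      pow_add_pow_le (w.val.nonneg _) (by linarith) hd0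
    linarith
  TI w := if w.IsReal then Real.log (uR w.val d c) else 0
  TF w := if Good d c w then Real.log (uR w.val d c) else 0
  hB := one_le_pow₀ (by norm_num)
  hTI w := by
    split_ifs
    · exact Real.log_nonneg (one_le_uR _ _ _)
    · exact le_rfl
  hTF w := by
    split_ifs
    · exact Real.log_nonneg (one_le_uR _ _ _)
    · exact le_rfl
  t1 w z _ := by
    have h1 : 0 ≤ Real.log (uR w.val d c) := Real.log_nonneg (one_le_uR _ _ _)
    have h2 := exc_nonneg w.val (uR w.val d c) z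
    have h3 : (3 : ℝ) ≤ d := by exact_mod_cast hd
    split_ifs
    · nlinarith
    · positivity
  t2 w z _ := by
    have h1 : 0 ≤ Real.log (uR w.val d c) := Real.log_nonneg (one_le_uR _ _ _)
    have h2 := exc_nonneg w.val (4 * uR w.val d c) z
    have h3 : (3 : ℝ) ≤ d := by exact_mod_cast hd
    have h4 : 0 ≤ Real.log 8 := Real.log_nonneg (by norm_num)
    split_ifs
    · nlinarith
    · positivity
  g1 w hT Z hZ _ h := by
    have hg : Good d c w := by
      by_contra hc
      rw [if_neg hc] at hT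
      exact lt_irrefl _ hT
    rw [if_pos hg] at hT ⊢
    have hR0 : 0 < uR w.val d c := zero_lt_one.trans_le (one_le_uR _ _ _)
    have hR : 1 < uR w.val d c := by
      by_contra hc
      have : uR w.val d c = 1 := le_antisymm (not_lt.1 hc) (one_le_uR _ _ _)
      rw [this, Real.log_one] at hT
      exact lt_irrefl _ hT
    rw [Real.exp_neg, Real.exp_log hR0]
    exact unic_F w hd hg hR hZ h
  g2 w hT Z hZ _ h := by
    have hlB : 0 ≤ Real.log ((2 : ℝ) ^ (d + 5)) := Real.log_nonneg (one_le_pow₀ (by norm_num))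
    have hg : w.IsReal := by
      by_contra hc
      rw [if_neg hc] at hT
      linarith
    rw [if_pos hg] at hT ⊢
    have hR0 : 0 < uR w.val d c := zero_lt_one.trans_le (one_le_uR _ _ _)
    have hR : 2 ^ (d + 5) < uR w.val d c := by
      by_contra hc
      have := Real.log_le_log hR0 (not_lt.1 hc)
      linarith
    rw [Real.exp_neg, Real.exp_log hR0]
    exact unic_I w hg hd hR hZ h

end

end Pool.Agent.Lib_helper5.DLH
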