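import Mathlib

/-!
# Bounds for Vandermonde determinants with respect to an absolute value
-/

set_option autoImplicit false

open Polynomial Finset

namespace Pool.Agent.Lib_helper5.DLH

variable {L : Type*} [Field L]

/-- the Vandermonde determinant of a tuple -/
noncomputable def vdm {N : ℕ} (z : Fin N → L) : L := (Matrix.vandermonde z).det

theorem vdm_ne_zero {N : ℕ} {z : Fin N → L} (hz : Function.Injective z) : vdm z ≠ 0 :=
  Matrix.det_vandermonde_ne_zero_iff.2 hz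

theorem abv_sum_le (v : AbsoluteValue L ℝ) {ι : Type*} (s : Finset ι) (g : ι → L) {C : ℝ}
    (h : ∀ i ∈ s, v (g i) ≤ C) : v (∑ i ∈ s, g i) ≤ s.card * C := by
  calc v (∑ i ∈ s, g i) ≤ ∑ i ∈ s, v (g i) := v.sum_le s g
    _ ≤ ∑ _i ∈ s, C := Finset.sum_le_sum h
    _ = s.card * C := by simp

theorem abv_sum_le_nonarch (v : AbsoluteValue L ℝ) (hv : IsNonarchimedean v) {ι : Type*}
    (s : Finset ι) (g : ι → L) {C : ℝ} (hC : 0 ≤ C) (h : ∀ i ∈ s, v (g i) ≤ C) :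
    v (∑ i ∈ s, g i) ≤ C := by
  classical
  induction s using Finset.induction_on with
  | empty => simpa using hC
  | insert a s ha ih =>
    rw [Finset.sum_insert ha]
    exact (hv _ _).trans (max_le (h a (Finset.mem_insert_self a s))
      (ih fun i hi => h i (Finset.mem_insert_of_mem hi)))

theorem abv_perm_term (v : AbsoluteValue L ℝ) {N : ℕ} (A : Matrix (Fin N) (Fin N) L)
    (a b : Fin N → ℝ) (h : ∀ i j, v (A i j) ≤ a i * b j) (σ : Equiv.Perm (Fin N)) :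
    v (Equiv.Perm.sign σ • ∏ i, A (σ i) i) ≤ (∏ i, a i) * ∏ j, b j := by
  have h1 : v (Equiv.Perm.sign σ • ∏ i, A (σ i) i) = ∏ i, v (A (σ i) i) := by
    rcases Int.units_eq_one_or (Equiv.Perm.sign σ) with hs | hs <;> simp [hs, Units.smul_def]
  rw [h1]
  calc ∏ i, v (A (σ i) i) ≤ ∏ i, (a (σ i) * b i) :=
        Finset.prod_le_prod (fun i _ => v.nonneg _) fun i _ => h _ _
    _ = (∏ i, a (σ i)) * ∏ i, b i := Finset.prod_mul_distrib
    _ = (∏ i, a i) * ∏ j, b j := by rw [Equiv.prod_comp σ a]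

theorem abv_det_le (v : AbsoluteValue L ℝ) {N : ℕ} (A : Matrix (Fin N) (Fin N) L)
    (a b : Fin N → ℝ) (h : ∀ i j, v (A i j) ≤ a i * b j) :
    v A.det ≤ (N.factorial : ℝ) * ((∏ i, a i) * ∏ j, b j) := by
  rw [Matrix.det_apply]
  refine (abv_sum_le v _ _ fun σ _ => abv_perm_term v A a b h σ).trans ?_
  rw [Finset.card_univ, Fintype.card_perm, Fintype.card_fin]

theorem abv_det_le_nonarch (v : AbsoluteValue L ℝ) (hv : IsNonarchimedean v) {N : ℕ}
    (A : Matrix (Fin N) (Fin N) L) (a b : Fin N → ℝ) (ha : ∀ i, 0 ≤ a i) (hb : ∀ i, 0 ≤ b i)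
    (h : ∀ i j, v (A i j) ≤ a i * b j) : v A.det ≤ (∏ i, a i) * ∏ j, b j := by
  rw [Matrix.det_apply]
  exact abv_sum_le_nonarch v hv _ _ (mul_nonneg (Finset.prod_nonneg fun i _ => ha i)
    (Finset.prod_nonneg fun i _ => hb i)) fun σ _ => abv_perm_term v A a b h σ

/-- the monic polynomials of degree `n` built from `G` -/
noncomputable def qpol (G : L[X]) (M n : ℕ) : L[X] := G ^ (n / M) * X ^ (n % M)

theorem qpol_monic {G : L[X]} (hG : G.Monic) (M n : ℕ) : (qpol G M n).Monic :=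
  (hG.pow _).mul (monic_X_pow _)

theorem qpol_natDegree {G : L[X]} (hG : G.Monic) (n : ℕ) :
    (qpol G G.natDegree n).natDegree = n := by
  unfold qpol
  rw [(hG.pow _).natDegree_mul (monic_X_pow _), hG.natDegree_pow, natDegree_X_pow, mul_comm]
  exact Nat.div_add_mod n _

theorem vdm_eq {N : ℕ} (z : Fin N → L) {G : L[X]} (hG : G.Monic) :
    vdm z = (Matrix.of fun i j : Fin N => (qpol G G.natDegree j).eval (z i)).det :=
  Matrix.det_eval_matrixOfPolynomials_eq_det_vandermonde z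
    (fun j : Fin N => qpol G G.natDegree j) (fun j => qpol_natDegree hG j)
    (fun j => qpol_monic hG _ j)

/-- size of the entries -/
theorem qpol_eval_le (v : AbsoluteValue L ℝ) {G : L[X]} {M n N : ℕ} (hM : 1 ≤ M) (hn : n < N)
    {x : L} {ρ r s t : ℝ} (hρ : 0 < ρ) (hr : 1 ≤ r) (hs : 1 ≤ s) (ht : 1 ≤ t)
    (hG : v (G.eval x) ≤ ρ * s) (hx : v x ≤ r * t) :
    v ((qpol G M n).eval x) ≤ (s ^ N * t ^ M) * (ρ ^ (n / M) * r ^ (n % M)) := by
  unfold qpol
  rw [eval_mul, eval_pow, eval_pow, eval_X, map_mul, map_pow, map_pow]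
  have h1 : v (G.eval x) ^ (n / M) ≤ ρ ^ (n / M) * s ^ N := by
    calc v (G.eval x) ^ (n / M) ≤ (ρ * s) ^ (n / M) := pow_le_pow_left₀ (v.nonneg _) hG _
      _ = ρ ^ (n / M) * s ^ (n / M) := mul_pow _ _ _
      _ ≤ ρ ^ (n / M) * s ^ N := by
        refine mul_le_mul_of_nonneg_left ?_ (pow_nonneg hρ.le _)
        exact pow_le_pow_right₀ hs ((Nat.div_le_self n M).trans hn.le)
  have h2 : v x ^ (n % M) ≤ r ^ (n % M) * t ^ M := by
    calc v x ^ (n % M) ≤ (r * t) ^ (n % M) := pow_le_pow_left₀ (v.nonneg _) hx _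
      _ = r ^ (n % M) * t ^ (n % M) := mul_pow _ _ _
      _ ≤ r ^ (n % M) * t ^ M := by
        refine mul_le_mul_of_nonneg_left ?_ (by positivity)
        exact pow_le_pow_right₀ ht (Nat.mod_lt n hM).le
  calc v (G.eval x) ^ (n / M) * v x ^ (n % M)
      ≤ (ρ ^ (n / M) * s ^ N) * (r ^ (n % M) * t ^ M) :=
        mul_le_mul h1 h2 (pow_nonneg (v.nonneg _) _) (by positivity)
    _ = _ := by ring

/-- number of factors `G` in the basis -/
def dsum (N M : ℕ) : ℕ := ∑ n ∈ range N, n / M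

/-- number of factors `X` in the basis -/
def rsum (N M : ℕ) : ℕ := ∑ n ∈ range N, n % M

theorem rsum_le (N : ℕ) {M : ℕ} (hM : 1 ≤ M) : rsum N M ≤ N * M := by
  unfold rsum
  calc ∑ n ∈ range N, n % M ≤ ∑ _n ∈ range N, M :=
        Finset.sum_le_sum fun n _ => (Nat.mod_lt n hM).le
    _ = N * M := by simp

theorem dsum_add (N : ℕ) {M : ℕ} : M * dsum N M + rsum N M = ∑ n ∈ range N, n := by
  unfold dsum rsum
  rw [Finset.mul_sum, ← Finset.sum_add_distrib]
  exact Finset.sum_congr rfl fun n _ => Nat.div_add_mod n M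

theorem range_sum_real (N : ℕ) : ((∑ n ∈ range N, n : ℕ) : ℝ) = (N : ℝ) * (N - 1) / 2 := by
  induction N with
  | zero => simp
  | succ n ih =>
    rw [Finset.sum_range_succ]
    push_cast
    push_cast at ih
    rw [ih]
    ring

theorem dsum_le (N : ℕ) {M : ℕ} (hM : 1 ≤ M) : (dsum N M : ℝ) ≤ (N : ℝ) ^ 2 / (2 * M) := by
  have h := congrArg (Nat.cast : ℕ → ℝ) (dsum_add N (M := M))
  rw [range_sum_real] at h
  push_cast at h
  have h1 : (0 : ℝ) ≤ rsum N M := by positivity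
  have h2 : (0 : ℝ) < M := by exact_mod_cast hM
  rw [le_div_iff₀ (by positivity)]
  have h3 : (0 : ℝ) ≤ N := by positivity
  nlinarith

theorem le_dsum (N : ℕ) {M d : ℕ} (hM : 1 ≤ M) (hd : M ≤ d) :
    (N : ℝ) * (N - 1) / (2 * d) - N ≤ dsum N M := by
  have h := congrArg (Nat.cast : ℕ → ℝ) (dsum_add N (M := M))
  rw [range_sum_real] at h
  push_cast at h
  have h1 : (rsum N M : ℝ) ≤ N * M := by exact_mod_cast rsum_le N hM
  have h2 : (0 : ℝ) < M := by exact_mod_cast hM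
  have h2' : (M : ℝ) ≤ d := by exact_mod_cast hd
  have h3 : (N : ℝ) * (N - 1) / (2 * M) - N ≤ dsum N M := by
    rw [sub_le_iff_le_add, div_le_iff₀ (by positivity)]
    nlinarith
  have h4 : (N : ℝ) * (N - 1) / (2 * d) ≤ (N : ℝ) * (N - 1) / (2 * M) := by
    refine div_le_div_of_nonneg_left ?_ (by positivity) (by linarith)
    rcases Nat.eq_zero_or_pos N with h0 | h0
    · simp [h0]
    · have : (1 : ℝ) ≤ N := by exact_mod_cast h0
      exact mul_nonneg (by positivity) (by linarith)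
  linarith

theorem dsum_le_sq (N : ℕ) {M : ℕ} : (dsum N M : ℝ) ≤ (N : ℝ) ^ 2 := by
  unfold dsum
  have : ∑ n ∈ range N, n / M ≤ N ^ 2 := by
    calc ∑ n ∈ range N, n / M ≤ ∑ _n ∈ range N, N :=
          Finset.sum_le_sum fun n hn => (Nat.div_le_self n M).trans (Finset.mem_range.1 hn).le
      _ = N ^ 2 := by simp [sq]
  exact_mod_cast this

theorem prod_entries {N M : ℕ} (ρ r : ℝ) :
    ∏ j : Fin N, (ρ ^ ((j : ℕ) / M) * r ^ ((j : ℕ) % M)) = ρ ^ dsum N M * r ^ rsum N M := by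
  rw [Finset.prod_mul_distrib, Finset.prod_pow_eq_pow_sum, Finset.prod_pow_eq_pow_sum,
    Fin.sum_univ_eq_sum_range (fun n => n / M) N, Fin.sum_univ_eq_sum_range (fun n => n % M) N]
  rfl

/-- the bound for the Vandermonde determinant: `c = N!` always, `c = 1` for nonarchimedean `v` -/
theorem vdm_le (v : AbsoluteValue L ℝ) {N : ℕ} (z : Fin N → L) {G : L[X]} (hG : G.Monic)
    (hM : 1 ≤ G.natDegree) {ρ r : ℝ} (hρ : 0 < ρ) (hr : 1 ≤ r) (s t : Fin N → ℝ)
    (hs : ∀ i, 1 ≤ s i) (ht : ∀ i, 1 ≤ t i) (hGz : ∀ i, v (G.eval (z i)) ≤ ρ * s i)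
    (hz : ∀ i, v (z i) ≤ r * t i) :
    v (vdm z) ≤ (N.factorial : ℝ) * ((∏ i, (s i ^ N * t i ^ G.natDegree)) *
      (ρ ^ dsum N G.natDegree * r ^ rsum N G.natDegree)) := by
  rw [vdm_eq z hG, ← prod_entries (N := N) (M := G.natDegree) ρ r]
  exact abv_det_le v _ _ _ fun i j => qpol_eval_le v hM j.2 hρ hr (hs i) (ht i) (hGz i) (hz i)

theorem vdm_le_nonarch (v : AbsoluteValue L ℝ) (hv : IsNonarchimedean v) {N : ℕ} (z : Fin N → L)
    {G : L[X]} (hG : G.Monic) (hM : 1 ≤ G.natDegree) {ρ r : ℝ} (hρ : 0 < ρ) (hr : 1 ≤ r)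
    (s t : Fin N → ℝ) (hs : ∀ i, 1 ≤ s i) (ht : ∀ i, 1 ≤ t i)
    (hGz : ∀ i, v (G.eval (z i)) ≤ ρ * s i) (hz : ∀ i, v (z i) ≤ r * t i) :
    v (vdm z) ≤ (∏ i, (s i ^ N * t i ^ G.natDegree)) *
      (ρ ^ dsum N G.natDegree * r ^ rsum N G.natDegree) := by
  rw [vdm_eq z hG, ← prod_entries (N := N) (M := G.natDegree) ρ r]
  have hs0 : ∀ i, 0 ≤ s i := fun i => zero_le_one.trans (hs i)
  have ht0 : ∀ i, 0 ≤ t i := fun i => zero_le_one.trans (ht i)
  refine abv_det_le_nonarch v hv _ _ _ (fun i => ?_) (fun j => ?_)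
    fun i j => qpol_eval_le v hM j.2 hρ hr (hs i) (ht i) (hGz i) (hz i)
  · exact mul_nonneg (pow_nonneg (hs0 i) _) (pow_nonneg (ht0 i) _)
  · exact mul_nonneg (pow_nonneg hρ.le _) (pow_nonneg (zero_le_one.trans hr) _)

/-- logarithmic form; `c = log N!` or `c = 0` -/
theorem log_vdm_le (v : AbsoluteValue L ℝ) {N : ℕ} (z : Fin N → L) (hz0 : Function.Injective z)
    {G : L[X]} (hG : G.Monic) (hM : 1 ≤ G.natDegree) {ρ r : ℝ} (hρ : 0 < ρ) (hr : 1 ≤ r)
    (s t : Fin N → ℝ) (hs : ∀ i, 1 ≤ s i) (ht : ∀ i, 1 ≤ t i)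
    (hGz : ∀ i, v (G.eval (z i)) ≤ ρ * s i) (hz : ∀ i, v (z i) ≤ r * t i) (c : ℝ)
    (hc : c = Real.log N.factorial ∨ (c = 0 ∧ IsNonarchimedean v)) :
    Real.log (v (vdm z)) ≤ c + (∑ i, (N * Real.log (s i) + G.natDegree * Real.log (t i))) +
      (dsum N G.natDegree * Real.log ρ + rsum N G.natDegree * Real.log r) := by
  have hpos : 0 < v (vdm z) := v.pos (vdm_ne_zero hz0)
  have hs0 : ∀ i, 0 < s i := fun i => zero_lt_one.trans_le (hs i)
  have ht0 : ∀ i, 0 < t i := fun i => zero_lt_one.trans_le (ht i)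
  have hr0 : 0 < r := zero_lt_one.trans_le hr
  have hP : Real.log ((∏ i, (s i ^ N * t i ^ G.natDegree)) *
      (ρ ^ dsum N G.natDegree * r ^ rsum N G.natDegree)) =
      (∑ i, (N * Real.log (s i) + G.natDegree * Real.log (t i))) +
      (dsum N G.natDegree * Real.log ρ + rsum N G.natDegree * Real.log r) := by
    have h1 : (∏ i, (s i ^ N * t i ^ G.natDegree)) ≠ 0 :=
      Finset.prod_ne_zero_iff.2 fun i _ => mul_ne_zero (pow_ne_zero _ (hs0 i).ne')
        (pow_ne_zero _ (ht0 i).ne')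
    rw [Real.log_mul h1 (mul_ne_zero (pow_ne_zero _ hρ.ne') (pow_ne_zero _ hr0.ne')),
      Real.log_mul (pow_ne_zero _ hρ.ne') (pow_ne_zero _ hr0.ne'), Real.log_pow, Real.log_pow,
      Real.log_prod (fun i _ => mul_ne_zero (pow_ne_zero _ (hs0 i).ne')
        (pow_ne_zero _ (ht0 i).ne'))]
    congr 1
    refine Finset.sum_congr rfl fun i _ => ?_
    rw [Real.log_mul (pow_ne_zero _ (hs0 i).ne') (pow_ne_zero _ (ht0 i).ne'), Real.log_pow,
      Real.log_pow]
  rcases hc with hc | ⟨hc, hv⟩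
  · rw [hc, add_assoc, ← hP, ← Real.log_mul (by positivity) ?_]
    · exact Real.log_le_log hpos (vdm_le v z hG hM hρ hr s t hs ht hGz hz)
    · refine mul_ne_zero (Finset.prod_ne_zero_iff.2 fun i _ => ?_) ?_
      · exact mul_ne_zero (pow_ne_zero _ (hs0 i).ne') (pow_ne_zero _ (ht0 i).ne')
      · exact mul_ne_zero (pow_ne_zero _ hρ.ne') (pow_ne_zero _ hr0.ne')
  · rw [hc, add_assoc, ← hP, zero_add]
    exact Real.log_le_log hpos (vdm_le_nonarch v hv z hG hM hρ hr s t hs ht hGz hz)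

end Pool.Agent.Lib_helper5.DLH
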